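import Mathlib

/-! Row A1: complete symmetric polynomials of a list, Newton identity. (newton: induction on the list; with
h(x::l)_n = sum_k x^k h(l)_(n-k) both sides are sum_k n x^k h(l)_(n-k); or induction on n with hs_succ.) -/

namespace Dsh
variable {R : Type*} [CommRing R]

/-- complete symmetric polynomial of degree n in the elements of a list -/
def hs : List R → ℕ → R
  | [], 0 => 1
  | [], _ + 1 => 0
  | x :: l, n => ∑ k ∈ Finset.range (n + 1), x ^ k * hs l (n - k)

theorem hs_zero (l : List R) : hs l 0 = 1 := by
  induction l with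
  | nil => rfl
  | cons x l ih => simp [hs, ih]

theorem hs_succ (x : R) (l : List R) (n : ℕ) : hs (x :: l) (n + 1) = hs l (n + 1) + x * hs (x :: l) n := by
  rw [hs, Finset.sum_range_succ', hs, Finset.mul_sum, add_comm]
  congr 1
  · simp
  · refine Finset.sum_congr rfl fun k _ => ?_
    rw [Nat.add_sub_add_right, pow_succ]
    ring

theorem newton (l : List R) (n : ℕ) :
    (n : R) * hs l n = ∑ i ∈ Finset.range n, (l.map (· ^ (i + 1))).sum * hs l (n - 1 - i) := by
  induction l generalizing n with
  | nil =>
    cases n with
    | zero => simp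
    | succ n => simp [hs]
  | cons x l ih =>
    induction n with
    | zero => simp
    | succ n ihn =>
      have e1 : ∑ i ∈ Finset.range (n + 1), ((x :: l).map (· ^ (i + 1))).sum * hs (x :: l) (n + 1 - 1 - i)
          = ∑ i ∈ Finset.range (n + 1), (l.map (· ^ (i + 1))).sum * hs (x :: l) (n - i)
            + ∑ i ∈ Finset.range (n + 1), x ^ (i + 1) * hs (x :: l) (n - i) := by
        rw [← Finset.sum_add_distrib]
        refine Finset.sum_congr rfl fun i _ => ?_
        rw [List.map_cons, List.sum_cons, Nat.add_sub_cancel]
        ring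
      have e2 : ∑ i ∈ Finset.range (n + 1), (l.map (· ^ (i + 1))).sum * hs (x :: l) (n - i)
          = ∑ i ∈ Finset.range (n + 1), (l.map (· ^ (i + 1))).sum * hs l (n - i)
            + x * ∑ i ∈ Finset.range n, (l.map (· ^ (i + 1))).sum * hs (x :: l) (n - 1 - i) := by
        rw [Finset.sum_range_succ, Finset.sum_range_succ, Nat.sub_self, hs_zero, hs_zero, Finset.mul_sum,
          add_right_comm, ← Finset.sum_add_distrib]
        congr 1
        refine Finset.sum_congr rfl fun i hi => ?_
        have hi' := Finset.mem_range.1 hi
        obtain ⟨j, hj⟩ : ∃ j, n - i = j + 1 := ⟨n - i - 1, by omega⟩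
        rw [hj, hs_succ, show n - 1 - i = j by omega]
        ring
      have e3 : ∑ i ∈ Finset.range (n + 1), x ^ (i + 1) * hs (x :: l) (n - i)
          = x * hs (x :: l) n + x * ∑ i ∈ Finset.range n, x ^ (i + 1) * hs (x :: l) (n - 1 - i) := by
        rw [Finset.sum_range_succ', Finset.mul_sum, add_comm]
        congr 1
        · simp
        · refine Finset.sum_congr rfl fun i _ => ?_
          rw [show n - (i + 1) = n - 1 - i by omega, pow_succ]
          ring
      have e4 : ∑ i ∈ Finset.range n, ((x :: l).map (· ^ (i + 1))).sum * hs (x :: l) (n - 1 - i)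
          = ∑ i ∈ Finset.range n, (l.map (· ^ (i + 1))).sum * hs (x :: l) (n - 1 - i)
            + ∑ i ∈ Finset.range n, x ^ (i + 1) * hs (x :: l) (n - 1 - i) := by
        rw [← Finset.sum_add_distrib]
        refine Finset.sum_congr rfl fun i _ => ?_
        rw [List.map_cons, List.sum_cons]
        ring
      have h1 := ih (n + 1)
      rw [Nat.add_sub_cancel] at h1
      rw [e4] at ihn
      rw [e1, e2, e3, ← h1, hs_succ]
      push_cast
      linear_combination x * ihn

end Dsh
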