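import Pool.Agent.Lib.MP_720dbd_nt.A1

/-! Row A2: a functional which kills the power sums kills h_n(T_0..T_(j-1)) for n > d - j. (j = d: newton, divide by n;
then downwards: hs (tl j) n = hs (tl (j+1)) n - T_j hs (tl (j+1)) (n-1).) -/

namespace Dsh
variable {R : Type*} [CommRing R] [Algebra ℚ R]

/-- the list T_(j-1), ..., T_0 -/
def tl (T : ℕ → R) : ℕ → List R
  | 0 => []
  | j + 1 => T j :: tl T j

omit [Algebra ℚ R] in
theorem A2_sum (T : ℕ → R) (k : ℕ) : ∀ j : ℕ, ((tl T j).map (· ^ (k + 1))).sum = ∑ i ∈ Finset.range j, T i ^ (k + 1)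
  | 0 => by simp [tl]
  | j + 1 => by
    rw [tl, List.map_cons, List.sum_cons, A2_sum T k j, Finset.sum_range_succ, add_comm]

theorem A2_aux (φ : R →ₗ[ℚ] ℚ) (T : ℕ → R) (d : ℕ)
    (hp : ∀ (k : ℕ) (G : R), φ ((∑ i ∈ Finset.range d, T i ^ (k + 1)) * G) = 0) :
    ∀ (e : ℕ), e ≤ d → ∀ (n : ℕ) (G : R), e < n → φ (hs (tl T (d - e)) n * G) = 0 := by
  intro e
  induction e with
  | zero =>
    intro _ n G hn
    have h1 : φ (((n : R) * hs (tl T d) n) * G) = 0 := by
      rw [newton, Finset.sum_mul, map_sum]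
      refine Finset.sum_eq_zero fun i _ => ?_
      rw [A2_sum, mul_assoc]
      exact hp i _
    have h2 : ((n : R) * hs (tl T d) n) * G = (n : ℚ) • (hs (tl T d) n * G) := by
      rw [Algebra.smul_def, map_natCast, mul_assoc]
    rw [h2, map_smul, smul_eq_mul] at h1
    rw [Nat.sub_zero]
    exact (mul_eq_zero.1 h1).resolve_left (by exact_mod_cast hn.ne')
  | succ e ih =>
    intro he n G hn
    obtain ⟨n, rfl⟩ : ∃ m, n = m + 1 := ⟨n - 1, by omega⟩
    have e1 : d - e = (d - (e + 1)) + 1 := by omega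
    have h1 := ih (by omega) (n + 1) G (by omega)
    have h2 := ih (by omega) n (T (d - (e + 1)) * G) (by omega)
    rw [e1, tl] at h1 h2
    rw [hs_succ, add_mul, map_add] at h1
    have h3 : T (d - (e + 1)) * hs (T (d - (e + 1)) :: tl T (d - (e + 1))) n * G =
        hs (T (d - (e + 1)) :: tl T (d - (e + 1))) n * (T (d - (e + 1)) * G) := by ring
    rw [h3, h2, add_zero] at h1
    exact h1

theorem kill_h (φ : R →ₗ[ℚ] ℚ) (T : ℕ → R) (d : ℕ)
    (hp : ∀ (k : ℕ) (G : R), φ ((∑ i ∈ Finset.range d, T i ^ (k + 1)) * G) = 0)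
    (j n : ℕ) (G : R) (hj : j ≤ d) (hn : d - j < n) : φ (hs (tl T j) n * G) = 0 := by
  have h := A2_aux φ T d hp (d - j) (Nat.sub_le d j) n G hn
  rwa [Nat.sub_sub_self hj] at h

end Dsh
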