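import Pool.Agent.Lib.MP_720dbd_nt.A2

/-! Row A3: monomials in T_0..T_(j-1) of degree > sum_(i<j) (d-1-i) are killed. Use the class Sj of sums of monomials
(inductive predicate or Submodule.span of products): for a in Sj n with n > sum_(i<j) (d-1-i): phi (a G) = 0. Induction on j;
for j+1: a = T_j^k a', a' in Sj (n-k): k <= d-1-j: induction hypothesis. k >= d-j: T_j^(d-j) = hs (tl (j+1)) (d-j) -
sum_(i<d-j) T_j^i hs (tl j) (d-j-i), the first term is killed by kill_h, the others have smaller k (strong induction on k),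
hs (tl j) m is in Sj m. -/

namespace Dsh
variable {R : Type*} [CommRing R] [Algebra ℚ R]

/-- sums of monomials of degree n in T_0..T_(j-1) -/
inductive SM (T : ℕ → R) : ℕ → ℕ → R → Prop
  | zero (j n : ℕ) : SM T j n 0
  | one : SM T 0 0 1
  | add {j n : ℕ} {a b : R} : SM T j n a → SM T j n b → SM T j n (a + b)
  | step {j n : ℕ} {a : R} (k : ℕ) : SM T j n a → SM T (j + 1) (n + k) (T j ^ k * a)

theorem A3_cast {T : ℕ → R} {j n n' : ℕ} {a a' : R} (h : SM T j n a) (hn : n = n') (ha : a = a') :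
    SM T j n' a' := by
  subst hn; subst ha; exact h

theorem A3_mul_aux {T : ℕ → R} {j m k : ℕ} {a : R}
    (ih : ∀ (n : ℕ) (b : R), SM T j n b → SM T j (m + n) (a * b)) :
    ∀ (j' n : ℕ) (b : R), SM T j' n b → j' = j + 1 → SM T (j + 1) (m + k + n) (T j ^ k * a * b) := by
  intro j' n b hb
  induction hb with
  | zero j' n =>
    intro _
    exact A3_cast (SM.zero (j + 1) (m + k + n)) rfl (by rw [mul_zero])
  | one => intro h; exact absurd h (by omega)
  | add h1 h2 ih1 ih2 =>
    intro h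
    exact A3_cast (SM.add (ih1 h) (ih2 h)) rfl (by ring)
  | @step j1 n1 b1 l h1 ih1 =>
    intro h
    obtain rfl : j1 = j := by omega
    exact A3_cast (SM.step (k + l) (ih n1 b1 h1)) (by omega) (by rw [pow_add]; ring)

theorem SM.mul {T : ℕ → R} {j m n : ℕ} {a b : R} (ha : SM T j m a) (hb : SM T j n b) : SM T j (m + n) (a * b) := by
  induction ha generalizing n b with
  | zero j m => exact A3_cast (SM.zero j (m + n)) rfl (by rw [zero_mul])
  | one => exact A3_cast hb (by omega) (by rw [one_mul])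
  | add h1 h2 ih1 ih2 => exact A3_cast (SM.add (ih1 hb) (ih2 hb)) rfl (by rw [add_mul])
  | step k h1 ih1 => exact A3_mul_aux (fun n b hb => ih1 hb) _ n b hb rfl

theorem A3_sum {T : ℕ → R} {j n : ℕ} {ι : Type*} (s : Finset ι) (f : ι → R) (h : ∀ i ∈ s, SM T j n (f i)) :
    SM T j n (∑ i ∈ s, f i) := by
  classical
  induction s using Finset.induction_on with
  | empty => rw [Finset.sum_empty]; exact SM.zero j n
  | insert a s ha ih =>
    rw [Finset.sum_insert ha]
    exact SM.add (h a (Finset.mem_insert_self a s)) (ih (fun i hi => h i (Finset.mem_insert_of_mem hi)))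

theorem SM.hs {T : ℕ → R} (j n : ℕ) : SM T j n (hs (tl T j) n) := by
  induction j generalizing n with
  | zero =>
    cases n with
    | zero => exact SM.one
    | succ n => exact SM.zero 0 (n + 1)
  | succ j ih =>
    change SM T (j + 1) n (∑ k ∈ Finset.range (n + 1), T j ^ k * Dsh.hs (tl T j) (n - k))
    refine A3_sum _ _ ?_
    intro k hk
    rw [Finset.mem_range] at hk
    exact A3_cast (SM.step k (ih (n - k))) (by omega) rfl

theorem SM.mono {T : ℕ → R} (a : ℕ → ℕ) (j : ℕ) :
    SM T j (∑ i ∈ Finset.range j, a i) (∏ i ∈ Finset.range j, T i ^ a i) := by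
  induction j with
  | zero => exact A3_cast SM.one (by simp) (by simp)
  | succ j ih =>
    exact A3_cast (SM.step (a j) ih) (by rw [Finset.sum_range_succ]) (by rw [Finset.prod_range_succ, mul_comm])

theorem A3_zero {T : ℕ → R} {j n : ℕ} {a : R} (h : SM T j n a) : j = 0 → 0 < n → a = 0 := by
  induction h with
  | zero j n => intro _ _; rfl
  | one => intro _ h; exact absurd h (by omega)
  | add h1 h2 ih1 ih2 => intro hj hn; rw [ih1 hj hn, ih2 hj hn, add_zero]
  | step k h1 ih1 => intro hj _; exact absurd hj (by omega)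

theorem A3_step (φ : R →ₗ[ℚ] ℚ) (T : ℕ → R) (d : ℕ)
    (hp : ∀ (k : ℕ) (G : R), φ ((∑ i ∈ Finset.range d, T i ^ (k + 1)) * G) = 0)
    (j : ℕ) (hj : j + 1 ≤ d)
    (ih : ∀ n : ℕ, ∑ i ∈ Finset.range j, (d - 1 - i) < n → ∀ a : R, SM T j n a → ∀ G : R, φ (a * G) = 0) :
    ∀ (k n : ℕ) (a : R), SM T j n a → ∑ i ∈ Finset.range (j + 1), (d - 1 - i) < n + k →
      ∀ G : R, φ (T j ^ k * a * G) = 0 := by
  intro k
  induction k using Nat.strong_induction_on with
  | _ k ihk =>
    intro n a ha hn G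
    rw [Finset.sum_range_succ] at hn
    by_cases hk : k ≤ d - 1 - j
    · have h1 := ih n (by omega) a ha (T j ^ k * G)
      rw [← h1]
      congr 1
      ring
    · obtain ⟨k', rfl⟩ : ∃ k', k = (d - j) + k' := ⟨k - (d - j), by omega⟩
      have hexp : T j ^ (d - j) = Dsh.hs (tl T (j + 1)) (d - j) -
          ∑ i ∈ Finset.range (d - j), T j ^ i * Dsh.hs (tl T j) (d - j - i) := by
        change T j ^ (d - j) = (∑ i ∈ Finset.range (d - j + 1), T j ^ i * Dsh.hs (tl T j) (d - j - i)) - _
        rw [Finset.sum_range_succ, Nat.sub_self, hs_zero, mul_one]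
        ring
      have hsplit : T j ^ (d - j + k') * a * G = Dsh.hs (tl T (j + 1)) (d - j) * (T j ^ k' * a * G) -
          ∑ i ∈ Finset.range (d - j), T j ^ (k' + i) * (Dsh.hs (tl T j) (d - j - i) * a) * G := by
        rw [pow_add, hexp, sub_mul, sub_mul, sub_mul, Finset.sum_mul, Finset.sum_mul, Finset.sum_mul]
        congr 1
        · ring
        · refine Finset.sum_congr rfl (fun i _ => ?_)
          rw [pow_add]; ring
      rw [hsplit, map_sub, kill_h φ T d hp (j + 1) (d - j) _ hj (by omega), map_sum, zero_sub, neg_eq_zero]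
      refine Finset.sum_eq_zero (fun i hi => ?_)
      rw [Finset.mem_range] at hi
      refine ihk (k' + i) (by omega) ((d - j - i) + n) _ (SM.mul (SM.hs j (d - j - i)) ha) ?_ G
      rw [Finset.sum_range_succ]
      omega

theorem A3_succ (φ : R →ₗ[ℚ] ℚ) (T : ℕ → R) (d j : ℕ)
    (ih : ∀ (k n : ℕ) (a : R), SM T j n a → ∑ i ∈ Finset.range (j + 1), (d - 1 - i) < n + k →
      ∀ G : R, φ (T j ^ k * a * G) = 0) :
    ∀ (j' n : ℕ) (a : R), SM T j' n a → j' = j + 1 → ∑ i ∈ Finset.range (j + 1), (d - 1 - i) < n →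
      ∀ G : R, φ (a * G) = 0 := by
  intro j' n a ha
  induction ha with
  | zero j' n => intro _ _ G; rw [zero_mul, map_zero]
  | one => intro h; exact absurd h (by omega)
  | add h1 h2 ih1 ih2 =>
    intro h hn G
    rw [add_mul, map_add, ih1 h hn G, ih2 h hn G, add_zero]
  | @step j1 n1 b1 l h1 ih1 =>
    intro h hn G
    obtain rfl : j1 = j := by omega
    exact ih l n1 b1 h1 hn G

theorem kill_SM (φ : R →ₗ[ℚ] ℚ) (T : ℕ → R) (d : ℕ)
    (hp : ∀ (k : ℕ) (G : R), φ ((∑ i ∈ Finset.range d, T i ^ (k + 1)) * G) = 0)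
    (j n : ℕ) (hj : j ≤ d) (hn : ∑ i ∈ Finset.range j, (d - 1 - i) < n) (a : R) (ha : SM T j n a) (G : R) :
    φ (a * G) = 0 := by
  induction j generalizing n a G with
  | zero =>
    rw [A3_zero ha rfl (by simpa using hn), zero_mul, map_zero]
  | succ j ih =>
    refine A3_succ φ T d j ?_ (j + 1) n a ha rfl hn G
    exact A3_step φ T d hp j hj (fun n hn a ha G => ih n (by omega) hn a ha G)

end Dsh
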