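import Pool.Agent.Lib.MP_720dbd_nt.A3

/-! Row A4: the top degree. top_delta: if phi kills moreover T^delta (delta_i = d-1-i) then it kills all sums of monomials of
degree sum_(i<d) (d-1-i). (Claim by induction on j <= d: for n = sum_(i<j) (d-1-i) and a in SM j n, phi (a G) is a
rational multiple (independent of G) of phi (prod_(i<j) T_i^(d-1-i) G); same reduction as in kill_SM: T_j^k a' with
k < d-1-j is killed by kill_SM, k = d-1-j: induction hypothesis, k >= d-j: reduce.) swap_delta: for j + 1 < d the monomial with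
the exponents of T_j and T_(j+1) exchanged: T_(j+1)^(d-1-j) = hs (tl (j+2)) (d-1-j) - sum_(k<d-1-j) T_(j+1)^k
hs (tl (j+1)) (d-1-j-k); multiply by prod_(i<j) T_i^(d-1-i) T_j^(d-2-j) times the rest; the first term is killed by kill_h
(d-(j+2) < d-1-j); k < d-2-j: killed by kill_SM with j+1; k = d-2-j: hs (tl (j+1)) 1 = T_0 + .. + T_j, the terms T_i, i<j,
are killed by kill_SM with j, the term T_j gives -phi (T^delta). -/

namespace Dsh
variable {R : Type*} [CommRing R] [Algebra ℚ R]

omit [Algebra ℚ R] in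
theorem A4_pow (T : ℕ → R) (j n : ℕ) :
    T j ^ n = hs (tl T (j + 1)) n - ∑ k ∈ Finset.range n, T j ^ k * hs (tl T j) (n - k) := by
  have h : hs (tl T (j + 1)) n = ∑ k ∈ Finset.range (n + 1), T j ^ k * hs (tl T j) (n - k) := by
    show hs (T j :: tl T j) n = _
    rw [hs]
  rw [h, Finset.sum_range_succ, Nat.sub_self, hs_zero, mul_one]
  ring

theorem A4_step (φ : R →ₗ[ℚ] ℚ) (T : ℕ → R) (d : ℕ)
    (hp : ∀ (k : ℕ) (G : R), φ ((∑ i ∈ Finset.range d, T i ^ (k + 1)) * G) = 0)
    (j : ℕ) (hj : j + 1 ≤ d)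
    (ih : ∀ a : R, SM T j (∑ i ∈ Finset.range j, (d - 1 - i)) a →
      ∃ q : ℚ, ∀ G : R, φ (a * G) = q * φ ((∏ i ∈ Finset.range j, T i ^ (d - 1 - i)) * G))
    (k : ℕ) : ∀ (n : ℕ) (a : R), SM T j n a →
      n + k = ∑ i ∈ Finset.range (j + 1), (d - 1 - i) →
      ∃ q : ℚ, ∀ G : R, φ (T j ^ k * a * G) =
        q * φ ((∏ i ∈ Finset.range (j + 1), T i ^ (d - 1 - i)) * G) := by
  induction k using Nat.strong_induction_on with
  | _ k ihk =>
    intro n a ha hn
    rw [Finset.sum_range_succ] at hn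
    rcases lt_trichotomy k (d - 1 - j) with hk | hk | hk
    · refine ⟨0, fun G => ?_⟩
      have h1 := kill_SM φ T d hp j n (by omega) (by omega) a ha (T j ^ k * G)
      rw [zero_mul, ← h1]
      congr 1
      ring
    · have hn' : n = ∑ i ∈ Finset.range j, (d - 1 - i) := by omega
      rw [hn'] at ha
      obtain ⟨q, hq⟩ := ih a ha
      refine ⟨q, fun G => ?_⟩
      have h1 := hq (T j ^ k * G)
      rw [Finset.prod_range_succ]
      have e1 : T j ^ k * a * G = a * (T j ^ k * G) := by ring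
      rw [e1, h1, hk]
      congr 2
      ring
    · -- reduction
      set m := d - j with hm
      have hmk : m ≤ k := by omega
      have hterm : ∀ i ∈ Finset.range m, ∃ q : ℚ, ∀ G : R,
          φ (T j ^ (k - m + i) * (hs (tl T j) (m - i) * a) * G) =
            q * φ ((∏ i ∈ Finset.range (j + 1), T i ^ (d - 1 - i)) * G) := by
        intro i hi
        rw [Finset.mem_range] at hi
        refine ihk (k - m + i) (by omega) ((m - i) + n) _ ((SM.hs j (m - i)).mul ha) ?_
        rw [Finset.sum_range_succ]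
        omega
      choose! q hq using hterm
      refine ⟨-∑ i ∈ Finset.range m, q i, fun G => ?_⟩
      have e1 : T j ^ k * a * G = hs (tl T (j + 1)) m * (T j ^ (k - m) * a * G) -
          ∑ i ∈ Finset.range m, T j ^ (k - m + i) * (hs (tl T j) (m - i) * a) * G := by
        have e2 : T j ^ k = T j ^ (k - m) * T j ^ m := by
          rw [← pow_add]
          congr 1
          omega
        rw [e2, A4_pow T j m]
        have e3 : ∑ i ∈ Finset.range m, T j ^ (k - m + i) * (hs (tl T j) (m - i) * a) * G =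
            T j ^ (k - m) * (∑ i ∈ Finset.range m, T j ^ i * hs (tl T j) (m - i)) * a * G := by
          rw [Finset.mul_sum, Finset.sum_mul, Finset.sum_mul]
          refine Finset.sum_congr rfl fun i _ => ?_
          rw [pow_add]
          ring
        rw [e3]
        ring
      rw [e1, map_sub, kill_h φ T d hp (j + 1) m _ hj (by omega), map_sum, zero_sub, neg_mul,
        Finset.sum_mul]
      congr 1
      exact Finset.sum_congr rfl fun i hi => hq i hi G

theorem A4_claim (φ : R →ₗ[ℚ] ℚ) (T : ℕ → R) (d : ℕ)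
    (hp : ∀ (k : ℕ) (G : R), φ ((∑ i ∈ Finset.range d, T i ^ (k + 1)) * G) = 0)
    (j : ℕ) (hj : j ≤ d) : ∀ a : R, SM T j (∑ i ∈ Finset.range j, (d - 1 - i)) a →
      ∃ q : ℚ, ∀ G : R, φ (a * G) = q * φ ((∏ i ∈ Finset.range j, T i ^ (d - 1 - i)) * G) := by
  induction j with
  | zero =>
    have key : ∀ (J N : ℕ) (a : R), SM T J N a → J = 0 →
        ∃ q : ℚ, ∀ G : R, φ (a * G) = q * φ G := by
      intro J N a ha
      induction ha with
      | zero j n => exact fun _ => ⟨0, fun G => by rw [zero_mul, zero_mul, map_zero]⟩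
      | one => exact fun _ => ⟨1, fun G => by rw [one_mul, one_mul]⟩
      | add _ _ ih1 ih2 =>
        intro h
        obtain ⟨q1, h1⟩ := ih1 h
        obtain ⟨q2, h2⟩ := ih2 h
        refine ⟨q1 + q2, fun G => ?_⟩
        rw [add_mul, map_add, h1, h2, add_mul]
      | step k _ _ => exact fun h => absurd h (Nat.succ_ne_zero _)
    intro a ha
    obtain ⟨q, hq⟩ := key 0 _ a ha rfl
    refine ⟨q, fun G => ?_⟩
    rw [hq, Finset.prod_range_zero, one_mul]
  | succ j ih =>
    have ih' := ih (by omega)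
    have key : ∀ (J N : ℕ) (a : R), SM T J N a → J = j + 1 →
        N = ∑ i ∈ Finset.range (j + 1), (d - 1 - i) →
        ∃ q : ℚ, ∀ G : R, φ (a * G) =
          q * φ ((∏ i ∈ Finset.range (j + 1), T i ^ (d - 1 - i)) * G) := by
      intro J N a ha
      induction ha with
      | zero j n => exact fun _ _ => ⟨0, fun G => by rw [zero_mul, zero_mul, map_zero]⟩
      | one => exact fun h => absurd h.symm (Nat.succ_ne_zero _)
      | add _ _ ih1 ih2 =>
        intro h h'
        obtain ⟨q1, h1⟩ := ih1 h h'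
        obtain ⟨q2, h2⟩ := ih2 h h'
        refine ⟨q1 + q2, fun G => ?_⟩
        rw [add_mul, map_add, h1, h2, add_mul]
      | @step j' n' a' k ha' _ =>
        intro h h'
        have hjj : j' = j := by omega
        subst hjj
        exact A4_step φ T d hp j' hj ih' k n' a' ha' h'
    intro a ha
    exact key (j + 1) _ a ha rfl rfl

theorem top_delta (φ : R →ₗ[ℚ] ℚ) (T : ℕ → R) (d : ℕ)
    (hp : ∀ (k : ℕ) (G : R), φ ((∑ i ∈ Finset.range d, T i ^ (k + 1)) * G) = 0)
    (h0 : φ (∏ i ∈ Finset.range d, T i ^ (d - 1 - i)) = 0)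
    (a : R) (ha : SM T d (∑ i ∈ Finset.range d, (d - 1 - i)) a) : φ a = 0 := by
  obtain ⟨q, hq⟩ := A4_claim φ T d hp d le_rfl a ha
  have h1 := hq 1
  rw [mul_one, mul_one, h0, mul_zero] at h1
  exact h1

theorem swap_delta (φ : R →ₗ[ℚ] ℚ) (T : ℕ → R) (d : ℕ)
    (hp : ∀ (k : ℕ) (G : R), φ ((∑ i ∈ Finset.range d, T i ^ (k + 1)) * G) = 0)
    (j : ℕ) (hj : j + 1 < d) :
    φ (∏ i ∈ Finset.range d, T (Equiv.swap j (j + 1) i) ^ (d - 1 - i)) =
      - φ (∏ i ∈ Finset.range d, T i ^ (d - 1 - i)) := by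
  obtain ⟨e, he⟩ : ∃ e, d = j + 2 + e := ⟨d - (j + 2), by omega⟩
  set A := ∏ i ∈ Finset.range j, T i ^ (d - 1 - i) with hA
  set B := ∏ i ∈ Finset.range e, T (j + 2 + i) ^ (d - 1 - (j + 2 + i)) with hB
  have hd1 : d - 1 - j = e + 1 := by omega
  have hd2 : d - 1 - (j + 1) = e := by omega
  have h1 : ∏ i ∈ Finset.range d, T i ^ (d - 1 - i) = A * T j ^ (e + 1) * T (j + 1) ^ e * B := by
    have h2 : Finset.range d = Finset.range (j + 2 + e) := by rw [he]
    rw [h2, Finset.prod_range_add, Finset.prod_range_succ, Finset.prod_range_succ, hd1, hd2]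
  have h3 : ∏ i ∈ Finset.range d, T (Equiv.swap j (j + 1) i) ^ (d - 1 - i) =
      A * T (j + 1) ^ (e + 1) * T j ^ e * B := by
    have h2 : Finset.range d = Finset.range (j + 2 + e) := by rw [he]
    rw [h2, Finset.prod_range_add, Finset.prod_range_succ, Finset.prod_range_succ, hd1, hd2,
      Equiv.swap_apply_left, Equiv.swap_apply_right]
    congr 1
    · congr 2
      refine Finset.prod_congr rfl fun i hi => ?_
      rw [Finset.mem_range] at hi
      rw [Equiv.swap_apply_of_ne_of_ne (by omega) (by omega)]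
    · refine Finset.prod_congr rfl fun i _ => ?_
      rw [Equiv.swap_apply_of_ne_of_ne (by omega) (by omega)]
  have hAS : SM T j (∑ i ∈ Finset.range j, (d - 1 - i)) A := SM.mono (fun i => d - 1 - i) j
  rw [h3, h1, A4_pow T (j + 1) (e + 1), Finset.sum_range_succ]
  have e1 : e + 1 - e = 1 := by omega
  have e2 : hs (tl T (j + 1)) 1 = hs (tl T j) 1 + T j := by
    have h := hs_succ (T j) (tl T j) 0
    rw [hs_zero, mul_one] at h
    exact h
  rw [e1, e2]
  have h4 : A * (hs (tl T (j + 1 + 1)) (e + 1) -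
      (∑ x ∈ Finset.range e, T (j + 1) ^ x * hs (tl T (j + 1)) (e + 1 - x) +
        T (j + 1) ^ e * (hs (tl T j) 1 + T j))) * T j ^ e * B =
      hs (tl T (j + 1 + 1)) (e + 1) * (A * T j ^ e * B) -
      (∑ x ∈ Finset.range e, (T j ^ e * A * hs (tl T (j + 1)) (e + 1 - x)) * (T (j + 1) ^ x * B)) -
      (A * hs (tl T j) 1) * (T (j + 1) ^ e * T j ^ e * B) -
      A * T j ^ (e + 1) * T (j + 1) ^ e * B := by
    have h5 : ∑ x ∈ Finset.range e,
        (T j ^ e * A * hs (tl T (j + 1)) (e + 1 - x)) * (T (j + 1) ^ x * B) =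
        A * (∑ x ∈ Finset.range e, T (j + 1) ^ x * hs (tl T (j + 1)) (e + 1 - x)) * T j ^ e * B := by
      rw [Finset.mul_sum, Finset.sum_mul, Finset.sum_mul]
      exact Finset.sum_congr rfl fun i _ => by ring
    rw [h5]
    ring
  rw [h4, map_sub, map_sub, map_sub, kill_h φ T d hp (j + 1 + 1) (e + 1) _ (by omega) (by omega),
    kill_SM φ T d hp j (∑ i ∈ Finset.range j, (d - 1 - i) + 1) (by omega) (by omega) _
      (hAS.mul (SM.hs j 1)), map_sum, Finset.sum_eq_zero]
  · ring
  · intro x hx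
    rw [Finset.mem_range] at hx
    have hS : SM T (j + 1) (∑ i ∈ Finset.range j, (d - 1 - i) + e + (e + 1 - x))
        (T j ^ e * A * hs (tl T (j + 1)) (e + 1 - x)) :=
      (SM.step e hAS).mul (SM.hs (j + 1) (e + 1 - x))
    refine kill_SM φ T d hp (j + 1) _ (by omega) ?_ _ hS _
    rw [Finset.sum_range_succ, hd1]
    omega

end Dsh
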