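import Pool.Agent.Lib.MP_720dbd_nt.Wds

/-! Row A5: the functional on polynomials in T_0..T_(d-1). phi (monomial u 1) = q (ofFn u) in degree D, 0 otherwise.
It kills p_1 G (hP) and L G, L = sum X_i^2 d/dX_i a derivation (hL); L p_k = k p_(k+1), so
k phi (p_(k+1) G) = phi (L (p_k G)) - phi (p_k L G) = 0 by induction. -/

namespace Dsh
open MvPolynomial

theorem A5_inc : ∀ (d : ℕ) (h : ℕ → List ℕ → ℚ) (u : Fin d → ℕ),
    ((inc (List.ofFn u)).map fun p => h p.1 p.2).sum
      = ∑ i, h (u i) (List.ofFn (Function.update u i (u i + 1))) := by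
  intro d
  induction d with
  | zero => intro h u; simp [inc]
  | succ d ih =>
    intro h u
    rw [List.ofFn_succ, inc, List.map_cons, List.sum_cons, Fin.sum_univ_succ, List.map_map]
    have h1 := ih (fun a l => h a (u 0 :: l)) (fun i => u i.succ)
    have e1 : ((fun p : ℕ × List ℕ => h p.1 p.2) ∘ fun p : ℕ × List ℕ => (p.1, u 0 :: p.2))
        = fun p => h p.1 (u 0 :: p.2) := rfl
    rw [e1, h1]
    congr 1
    · congr 1
      rw [List.ofFn_succ]
      simp [Fin.succ_ne_zero]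
    · refine Finset.sum_congr rfl fun i _ => ?_
      congr 1
      rw [List.ofFn_succ]
      have h2 : Function.update u i.succ (u i.succ + 1) 0 = u 0 :=
        Function.update_of_ne (Fin.succ_ne_zero i).symm _ _
      rw [h2]
      congr 1
      congr 1
      funext j
      by_cases hj : j = i
      · subst hj; simp
      · rw [Function.update_of_ne hj, Function.update_of_ne]
        exact fun h => hj (Fin.succ_injective _ h)

theorem A5_upd {d : ℕ} (u : Fin d →₀ ℕ) (i : Fin d) :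
    (⇑(u + (Finsupp.single i 1 : Fin d →₀ ℕ)) : Fin d → ℕ) = Function.update (⇑u) i (u i + 1) := by
  funext j
  by_cases hj : j = i
  · subst hj; simp
  · rw [Function.update_of_ne hj, Finsupp.add_apply, Finsupp.single_apply, if_neg (Ne.symm hj), add_zero]

theorem A5_sum {d : ℕ} (u : Fin d →₀ ℕ) (i : Fin d) :
    (∑ j, (u + (Finsupp.single i 1 : Fin d →₀ ℕ)) j) = (∑ j, u j) + 1 := by
  simp [Finset.sum_add_distrib, Finsupp.single_apply]

theorem A5_Xmul {d : ℕ} (u : Fin d →₀ ℕ) (i : Fin d) :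
    (MvPolynomial.X i : MvPolynomial (Fin d) ℚ) * monomial u 1 = monomial (u + Finsupp.single i 1) 1 := by
  rw [MvPolynomial.X, monomial_mul, one_mul, add_comm]

theorem A5_mono {d : ℕ} (T : MvPolynomial (Fin d) ℚ →ₗ[ℚ] ℚ) (hT : ∀ u, T (monomial u 1) = 0)
    (G : MvPolynomial (Fin d) ℚ) : T G = 0 := by
  have h1 : T = 0 := (basisMonomials (Fin d) ℚ).ext fun u => by
    rw [coe_basisMonomials]; simpa using hT u
  rw [h1]; rfl

theorem A5_pd {d : ℕ} (u : Fin d →₀ ℕ) (i : Fin d) :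
    (MvPolynomial.X i ^ 2 : MvPolynomial (Fin d) ℚ) * pderiv i (monomial u 1)
      = (u i : ℚ) • monomial (u + Finsupp.single i 1) (1 : ℚ) := by
  rw [pderiv_monomial, one_mul]
  by_cases hu : u i = 0
  · rw [hu]; simp
  · rw [X_pow_eq_monomial, monomial_mul, smul_monomial, one_mul, smul_eq_mul, mul_one]
    have h1 : (Finsupp.single i 2 + (u - Finsupp.single i 1) : Fin d →₀ ℕ) = u + Finsupp.single i 1 := by
      ext j
      by_cases hj : j = i
      · subst hj; simp; omega
      · simp [Finsupp.single_apply, Ne.symm hj]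
    rw [h1]

/-- the derivation sum X_i^2 d/dX_i -/
noncomputable def A5_L (d : ℕ) : Derivation ℚ (MvPolynomial (Fin d) ℚ) (MvPolynomial (Fin d) ℚ) :=
  mkDerivation ℚ (fun i => MvPolynomial.X i ^ 2)

theorem A5_L_X {d : ℕ} (i : Fin d) : A5_L d (MvPolynomial.X i) = MvPolynomial.X i ^ 2 := mkDerivation_X ℚ _ i

theorem A5_L_eq (d : ℕ) (G : MvPolynomial (Fin d) ℚ) :
    A5_L d G = ∑ i, MvPolynomial.X i ^ 2 * pderiv i G := by
  have h2 : ∀ (s : Finset (Fin d)) (H : MvPolynomial (Fin d) ℚ),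
      (∑ i ∈ s, (MvPolynomial.X i ^ 2 : MvPolynomial (Fin d) ℚ) • pderiv i) H
        = ∑ i ∈ s, MvPolynomial.X i ^ 2 * pderiv i H := by
    intro s H
    induction s using Finset.induction_on with
    | empty => simp
    | insert a s ha ih => rw [Finset.sum_insert ha, Finset.sum_insert ha, Derivation.add_apply, ih]; rfl
  have h1 : A5_L d = ∑ i, (MvPolynomial.X i ^ 2 : MvPolynomial (Fin d) ℚ) • pderiv i := by
    refine derivation_ext ?_
    intro i
    rw [A5_L_X, h2]
    rw [Finset.sum_eq_single i]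
    · rw [pderiv_X_self, mul_one]
    · intro j _ hj
      rw [pderiv_X_of_ne hj.symm, mul_zero]
    · intro h; exact absurd (Finset.mem_univ i) h
  rw [h1, h2]

theorem A5_L_pow {d : ℕ} (i : Fin d) (k : ℕ) :
    A5_L d (MvPolynomial.X i ^ (k + 1)) = ((k : ℚ) + 1) • (MvPolynomial.X i ^ (k + 1 + 1) : MvPolynomial (Fin d) ℚ) := by
  rw [Derivation.leibniz_pow, A5_L_X, Nat.add_sub_cancel, smul_eq_mul, ← pow_add]
  rw [show k + 2 = k + 1 + 1 from rfl]
  have : ((k : ℚ) + 1) = ((k + 1 : ℕ) : ℚ) := by push_cast; ring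
  rw [this, Nat.cast_smul_eq_nsmul]

theorem exists_functional (d D : ℕ) (q : List ℕ → ℚ)
    (hP : ∀ m : List ℕ, m.length = d → m.sum + 1 = D → ((inc m).map fun p => q p.2).sum = 0)
    (hL : ∀ m : List ℕ, m.length = d → m.sum + 1 = D → ((inc m).map fun p => (p.1 : ℚ) * q p.2).sum = 0) :
    ∃ φ : MvPolynomial (Fin d) ℚ →ₗ[ℚ] ℚ,
      (∀ u : Fin d →₀ ℕ, φ (monomial u 1) = if (∑ i, u i) = D then q (List.ofFn u) else 0) ∧
      ∀ (k : ℕ) (G : MvPolynomial (Fin d) ℚ), φ ((∑ i, X i ^ (k + 1)) * G) = 0 := by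
  obtain ⟨φ, hφ⟩ : ∃ φ : MvPolynomial (Fin d) ℚ →ₗ[ℚ] ℚ,
      ∀ u : Fin d →₀ ℕ, φ (monomial u 1) = if (∑ i, u i) = D then q (List.ofFn u) else 0 := by
    refine ⟨(basisMonomials (Fin d) ℚ).constr ℚ (fun u => if (∑ i, u i) = D then q (List.ofFn u) else 0), ?_⟩
    intro u
    have h1 := (basisMonomials (Fin d) ℚ).constr_basis ℚ
      (fun u => if (∑ i, u i) = D then q (List.ofFn u) else 0) u
    rwa [coe_basisMonomials] at h1
  refine ⟨φ, hφ, ?_⟩
  -- the two vanishing facts on monomials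
  have key : ∀ (h : ℕ → ℚ), (∀ m : List ℕ, m.length = d → m.sum + 1 = D →
      ((inc m).map fun p => h p.1 * q p.2).sum = 0) → ∀ (u : Fin d →₀ ℕ),
      (∑ i, h (u i) * φ (monomial (u + (Finsupp.single i 1 : Fin d →₀ ℕ)) 1)) = 0 := by
    intro h hh u
    have e1 : ∀ i, h (u i) * φ (monomial (u + (Finsupp.single i 1 : Fin d →₀ ℕ)) 1)
        = if (∑ j, u j) + 1 = D then h (u i) * q (List.ofFn (Function.update (⇑u) i (u i + 1))) else 0 := by
      intro i
      rw [hφ, A5_sum, A5_upd]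
      split_ifs
      · rfl
      · exact mul_zero _
    rw [Finset.sum_congr rfl fun i _ => e1 i]
    by_cases hD : (∑ j, u j) + 1 = D
    · simp only [if_pos hD]
      rw [← A5_inc d (fun a l => h a * q l) (⇑u)]
      exact hh _ (List.length_ofFn) (by rw [List.sum_ofFn]; exact hD)
    · simp only [if_neg hD, Finset.sum_const_zero]
  have hp1 : ∀ G : MvPolynomial (Fin d) ℚ, φ ((∑ i, MvPolynomial.X i) * G) = 0 := by
    intro G
    refine A5_mono (φ.comp (LinearMap.mulLeft ℚ (∑ i, MvPolynomial.X i))) (fun u => ?_) G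
    rw [LinearMap.comp_apply, LinearMap.mulLeft_apply, Finset.sum_mul, map_sum]
    have h1 := key (fun _ => 1) (by simpa only [one_mul] using hP) u
    simp only [one_mul] at h1
    rw [← h1]
    exact Finset.sum_congr rfl fun i _ => by rw [A5_Xmul]
  have hLG : ∀ G : MvPolynomial (Fin d) ℚ, φ (A5_L d G) = 0 := by
    intro G
    refine A5_mono (φ.comp (A5_L d : MvPolynomial (Fin d) ℚ →ₗ[ℚ] MvPolynomial (Fin d) ℚ)) (fun u => ?_) G
    change φ (A5_L d (monomial u 1)) = 0
    rw [A5_L_eq, map_sum, ← key (fun a => (a : ℚ)) hL u]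
    exact Finset.sum_congr rfl fun i _ => by rw [A5_pd, map_smul, smul_eq_mul]
  intro k
  induction k with
  | zero =>
    intro G
    have h1 := hp1 G
    simpa only [zero_add, pow_one] using h1
  | succ k ih =>
    intro G
    have h1 : A5_L d ((∑ i, MvPolynomial.X i ^ (k + 1)) * G)
        = (∑ i, MvPolynomial.X i ^ (k + 1)) * A5_L d G
          + ((k : ℚ) + 1) • ((∑ i, MvPolynomial.X i ^ (k + 1 + 1)) * G) := by
      rw [Derivation.leibniz, map_sum, Finset.sum_congr rfl fun i _ => A5_L_pow i k, ← Finset.smul_sum,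
        smul_eq_mul, smul_eq_mul, mul_smul_comm, mul_comm G]
    have h3 := hLG ((∑ i, MvPolynomial.X i ^ (k + 1)) * G)
    rw [h1, map_add, ih, zero_add, map_smul, smul_eq_mul] at h3
    have h4 : ((k : ℚ) + 1) ≠ 0 := by positivity
    exact (mul_eq_zero.mp h3).resolve_left h4

end Dsh
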