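import Pool.Agent.Lib.MP_720dbd_nt.A4
import Pool.Agent.Lib.MP_720dbd_nt.A5

/-! Row A6: end of the algebra. T i = X i for i < d, 0 otherwise; p_k = sum over range d. D > d(d-1)/2: kill_SM with j = d,
SM.mono. D = d(d-1)/2: for each permutation s of Fin d and every polynomial G homogeneous of degree D,
phi (rename s G) = sign s * phi G: the permutations with this property form a submonoid (subgroup), it contains the adjacent
transpositions (Equiv.Perm.mclosure_swap_castSucc_succ): the functional phi o rename s + phi kills the power sums and, by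
swap_delta, T^delta, so it kills all monomials of degree D by top_delta. s = finRotate: sign = (-1)^(d-1) = -1
(sign_finRotate) but hrot says phi (rename s G) = phi G on monomials, so 2 q = 0. -/

namespace Dsh
open MvPolynomial

theorem sum_delta (d : ℕ) : ∑ i ∈ Finset.range d, (d - 1 - i) = d * (d - 1) / 2 := by
  rw [Finset.sum_range_reflect (fun i => i) d]
  exact Finset.sum_range_id d

/-- the variables as a sequence -/
noncomputable def A6_T (d : ℕ) (i : ℕ) : MvPolynomial (Fin d) ℚ := if h : i < d then X ⟨i, h⟩ else 0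

theorem A6_T_fin {d : ℕ} (i : Fin d) : A6_T d i = X i := by
  simp [A6_T]

/-- an exponent vector as a sequence -/
noncomputable def A6_a {d : ℕ} (u : Fin d →₀ ℕ) (i : ℕ) : ℕ := if h : i < d then u ⟨i, h⟩ else 0

theorem A6_a_fin {d : ℕ} (u : Fin d →₀ ℕ) (i : Fin d) : A6_a u i = u i := by
  simp [A6_a]

theorem A6_mono {d : ℕ} (u : Fin d →₀ ℕ) :
    monomial u (1 : ℚ) = ∏ i ∈ Finset.range d, A6_T d i ^ A6_a u i := by
  rw [Finset.prod_range, MvPolynomial.monomial_eq, C_1, one_mul, Finsupp.prod_fintype _ _ (by simp)]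
  refine Finset.prod_congr rfl fun i _ => ?_
  rw [A6_T_fin, A6_a_fin]

theorem A6_SM {d : ℕ} (u : Fin d →₀ ℕ) : SM (A6_T d) d (∑ i, u i) (monomial u (1 : ℚ)) := by
  have h := SM.mono (T := A6_T d) (A6_a u) d
  rw [← A6_mono, Finset.sum_range] at h
  simpa only [A6_a_fin] using h

theorem A6_psum {d : ℕ} (k : ℕ) :
    (∑ i ∈ Finset.range d, A6_T d i ^ (k + 1)) = ∑ i : Fin d, (X i : MvPolynomial (Fin d) ℚ) ^ (k + 1) := by
  rw [Finset.sum_range]
  refine Finset.sum_congr rfl fun i _ => ?_
  rw [A6_T_fin]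

theorem A6_rename {d : ℕ} (s : Equiv.Perm (Fin d)) (u : Fin d →₀ ℕ) :
    rename s (monomial u (1 : ℚ)) = monomial (u.equivMapDomain s) 1 := by
  rw [rename_monomial, Finsupp.equivMapDomain_eq_mapDomain]

theorem A6_deg {d : ℕ} (s : Equiv.Perm (Fin d)) (u : Fin d →₀ ℕ) :
    ∑ i, (u.equivMapDomain s) i = ∑ i, u i := by
  simp only [Finsupp.equivMapDomain_apply]
  exact Equiv.sum_comp s.symm u

/-- the sign character on the top degree -/
theorem A6_sign {n : ℕ} (φ : MvPolynomial (Fin (n + 1)) ℚ →ₗ[ℚ] ℚ)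
    (hp : ∀ (k : ℕ) (G : MvPolynomial (Fin (n + 1)) ℚ), φ ((∑ i, X i ^ (k + 1)) * G) = 0)
    (s : Equiv.Perm (Fin (n + 1))) :
    ∀ u : Fin (n + 1) →₀ ℕ, ∑ i, u i = ∑ i ∈ Finset.range (n + 1), (n + 1 - 1 - i) →
      φ (rename s (monomial u 1)) = (Equiv.Perm.sign s : ℤ) * φ (monomial u 1) := by
  have hs : s ∈ Submonoid.closure (Set.range fun i : Fin n => Equiv.swap i.castSucc i.succ) := by
    rw [Equiv.Perm.mclosure_swap_castSucc_succ]
    exact Submonoid.mem_top s
  induction hs using Submonoid.closure_induction with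
  | mem s hs =>
    obtain ⟨j, rfl⟩ := hs
    intro u hu
    have hne : (j.castSucc : Fin (n + 1)) ≠ j.succ := by
      intro h
      have := congrArg Fin.val h
      simp at this
    rw [Equiv.Perm.sign_swap hne]
    set s : Equiv.Perm (Fin (n + 1)) := Equiv.swap j.castSucc j.succ with hs
    have key := top_delta ((φ.comp (rename s : MvPolynomial (Fin (n + 1)) ℚ →ₐ[ℚ] MvPolynomial (Fin (n + 1)) ℚ).toLinearMap) + φ)
      (A6_T (n + 1)) (n + 1) ?_ ?_ (monomial u 1) ?_
    · simp only [LinearMap.add_apply, LinearMap.comp_apply, AlgHom.toLinearMap_apply] at key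
      push_cast
      linarith
    · intro k G
      rw [A6_psum]
      simp only [LinearMap.add_apply, LinearMap.comp_apply, AlgHom.toLinearMap_apply, hp, add_zero]
      rw [map_mul, map_sum]
      simp only [map_pow, rename_X]
      rw [Equiv.sum_comp s (fun i => (X i : MvPolynomial (Fin (n + 1)) ℚ) ^ (k + 1))]
      exact hp k _
    · simp only [LinearMap.add_apply, LinearMap.comp_apply, AlgHom.toLinearMap_apply]
      have h := swap_delta φ (A6_T (n + 1)) (n + 1) (fun k G => by rw [A6_psum]; exact hp k G) j.val (by omega)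
      have e : rename s (∏ i ∈ Finset.range (n + 1), A6_T (n + 1) i ^ (n + 1 - 1 - i)) =
          ∏ i ∈ Finset.range (n + 1), A6_T (n + 1) (Equiv.swap j.val (j.val + 1) i) ^ (n + 1 - 1 - i) := by
        rw [map_prod, Finset.prod_range, Finset.prod_range]
        refine Finset.prod_congr rfl fun i _ => ?_
        rw [map_pow, A6_T_fin, rename_X, ← A6_T_fin]
        congr 2
        rw [hs, Equiv.swap_apply_def, Equiv.swap_apply_def]
        have e1 : (i = j.castSucc) ↔ (i : ℕ) = j.val := by rw [Fin.ext_iff]; simp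
        have e2 : (i = j.succ) ↔ (i : ℕ) = j.val + 1 := by rw [Fin.ext_iff]; simp
        by_cases h1 : (i : ℕ) = j.val
        · rw [if_pos (e1.2 h1), if_pos h1]; simp
        · rw [if_neg (fun h => h1 (e1.1 h)), if_neg h1]
          by_cases h2 : (i : ℕ) = j.val + 1
          · rw [if_pos (e2.2 h2), if_pos h2]; simp
          · rw [if_neg (fun h => h2 (e2.1 h)), if_neg h2]
      rw [e, h]
      ring
    · rw [← hu]
      exact A6_SM u
  | one =>
    intro u _
    rw [Equiv.Perm.sign_one]
    have : (rename (1 : Equiv.Perm (Fin (n + 1))) : MvPolynomial (Fin (n + 1)) ℚ →ₐ[ℚ] MvPolynomial (Fin (n + 1)) ℚ)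
        (monomial u 1) = monomial u 1 := by
      rw [A6_rename]
      have e : u.equivMapDomain (1 : Equiv.Perm (Fin (n + 1))) = u := Finsupp.ext fun i => rfl
      rw [e]
    rw [this]
    simp
  | mul s t _ _ hs ht =>
    intro u hu
    have e : rename (s * t) (monomial u (1 : ℚ)) = rename s (rename t (monomial u (1 : ℚ))) := by
      rw [rename_rename]
      rfl
    rw [e, A6_rename t, hs _ (by rw [A6_deg]; exact hu), ← A6_rename t, ht u hu, map_mul]
    push_cast
    ring

theorem alg_final (d D : ℕ) (hd : Even d) (hd0 : 0 < d) (q : List ℕ → ℚ)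
    (hP : ∀ m : List ℕ, m.length = d → m.sum + 1 = D → ((inc m).map fun p => q p.2).sum = 0)
    (hL : ∀ m : List ℕ, m.length = d → m.sum + 1 = D → ((inc m).map fun p => (p.1 : ℚ) * q p.2).sum = 0)
    (hrot : ∀ (k : ℕ) (m : List ℕ), (k :: m).length = d → (k :: m).sum = D → q (k :: m) = q (m ++ [k]))
    (hD : d * (d - 1) / 2 ≤ D) (hD1 : 1 ≤ D) (m : List ℕ) (hm : m.length = d) (hs : m.sum = D) : q m = 0 := by
  obtain ⟨φ, hφ, hp⟩ := exists_functional d D q hP hL
  have hp' : ∀ (k : ℕ) (G : MvPolynomial (Fin d) ℚ), φ ((∑ i ∈ Finset.range d, A6_T d i ^ (k + 1)) * G) = 0 := by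
    intro k G
    rw [A6_psum]
    exact hp k G
  -- the exponent vector of m
  obtain ⟨u, hu⟩ : ∃ u : Fin d →₀ ℕ, List.ofFn u = m := by
    subst hm
    exact ⟨Finsupp.equivFunOnFinite.symm m.get, by simp⟩
  have hus : ∑ i, u i = D := by
    rw [← hs, ← hu, List.sum_ofFn]
  have hqm : φ (monomial u 1) = q m := by
    rw [hφ, if_pos hus, hu]
  rw [← hqm]
  rcases hD.lt_or_eq with hlt | heq
  · rw [← sum_delta] at hlt
    have h := kill_SM φ (A6_T d) d hp' d D le_rfl hlt (monomial u 1) (hus ▸ A6_SM u) 1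
    rwa [mul_one] at h
  · rw [← sum_delta] at heq
    obtain ⟨n, rfl⟩ : ∃ n, d = n + 1 := ⟨d - 1, by omega⟩
    have h1 := A6_sign φ hp (finRotate (n + 1)) u (by rw [hus, heq])
    rw [sign_finRotate] at h1
    have hn : Odd n := by
      rcases Nat.even_or_odd n with h | h
      · exfalso
        have := (Nat.even_add_one (n := n)).1 hd
        exact this h
      · exact h
    rw [Nat.add_sub_cancel, hn.neg_one_pow] at h1
    have h2 : φ (rename (finRotate (n + 1)) (monomial u 1)) = φ (monomial u 1) := by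
      rw [A6_rename, hφ, hφ, A6_deg, if_pos hus, if_pos hus]
      have e1 : List.ofFn (u.equivMapDomain (finRotate (n + 1))) =
          u (Fin.last n) :: List.ofFn (fun i : Fin n => u i.castSucc) := by
        have e0 : (finRotate (n + 1)).symm 0 = Fin.last n := by
          rw [Equiv.symm_apply_eq, finRotate_last]
        have ei : ∀ i : Fin n, (finRotate (n + 1)).symm i.succ = i.castSucc := fun i => by
          rw [Equiv.symm_apply_eq, finRotate_apply, Fin.coeSucc_eq_succ]
        rw [List.ofFn_succ]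
        simp only [Finsupp.equivMapDomain_apply, e0, ei]
      have e2 : List.ofFn u = List.ofFn (fun i : Fin n => u i.castSucc) ++ [u (Fin.last n)] := by
        rw [List.ofFn_succ']
        simp
      rw [e1, e2]
      refine hrot _ _ (by simp) ?_
      rw [← e1, List.sum_ofFn, A6_deg, hus]
    rw [h2] at h1
    push_cast at h1
    linarith

end Dsh
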