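import Pool.Agent.Lib.MP_720dbd_nt.Wds

/-! Row C1: coefficients of the doubling relation. For a list a of length r+1 the monomial y^a takes at a list Z of
length r + 1 the value (Z.zipWith (·^·) a).prod; for Z in dd (X_0 ... X_(r-1)) this is the monomial with exponents a with two
neighbouring entries added (mg below). Linear in the polynomial Fp f: compare on monomials, use count_dbl.
(F f Z = aeval (Z.getD · 0) (Fp f) for Z of length r + 1.) -/

namespace Dsh
open MvPolynomial

/-- all ways to add two neighbouring entries -/
def mg : List ℕ → List (List ℕ)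
  | [] => []
  | [_] => []
  | x :: y :: a => ((x + y) :: a) :: (mg (y :: a)).map (x :: ·)

theorem C1_count_map_cons (x z : ℕ) (b : List ℕ) (l : List (List ℕ)) :
    (l.map (x :: ·)).count (z :: b) = if x = z then l.count b else 0 := by
  split_ifs with h
  · subst h
    exact List.count_map_of_injective l (x :: ·) (fun a b h => (List.cons.inj h).2) b
  · rw [List.count_eq_zero]
    intro hm
    obtain ⟨c, -, hc⟩ := List.mem_map.1 hm
    exact h (List.cons.inj hc).1

theorem C1_count_map_nil (x : ℕ) (l : List (List ℕ)) : (l.map (x :: ·)).count [] = 0 := by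
  rw [List.count_eq_zero]
  intro hm
  obtain ⟨c, -, hc⟩ := List.mem_map.1 hm
  exact List.cons_ne_nil _ _ hc

theorem C1_count_anti (x : ℕ) (v a : List ℕ) :
    ((List.Nat.antidiagonal x).map fun p => p.1 :: p.2 :: v).count a =
      match a with
      | z :: y :: a' => if z + y = x ∧ v = a' then 1 else 0
      | _ => 0 := by
  rcases a with _ | ⟨z, _ | ⟨y, a'⟩⟩
  · rw [List.count_eq_zero]
    intro hm
    obtain ⟨c, -, hc⟩ := List.mem_map.1 hm
    exact List.cons_ne_nil _ _ hc
  · rw [List.count_eq_zero]
    intro hm
    obtain ⟨c, -, hc⟩ := List.mem_map.1 hm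
    exact List.cons_ne_nil _ _ (List.cons.inj hc).2
  · show ((List.Nat.antidiagonal x).map fun p => p.1 :: p.2 :: v).count (z :: y :: a') =
      if z + y = x ∧ v = a' then 1 else 0
    by_cases hv : v = a'
    · subst hv
      have hinj : Function.Injective (fun p : ℕ × ℕ => p.1 :: p.2 :: v) := by
        intro p q h
        have h1 := List.cons.inj h
        exact Prod.ext h1.1 (List.cons.inj h1.2).1
      have h1 := List.count_map_of_injective (List.Nat.antidiagonal x) _ hinj (z, y)
      rw [show (z :: y :: v) = (fun p : ℕ × ℕ => p.1 :: p.2 :: v) (z, y) from rfl, h1,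
        (List.Nat.nodup_antidiagonal x).count]
      simp [List.Nat.mem_antidiagonal]
    · rw [if_neg (fun h => hv h.2), List.count_eq_zero]
      intro hm
      obtain ⟨c, -, hc⟩ := List.mem_map.1 hm
      exact hv (List.cons.inj (List.cons.inj hc).2).2

theorem count_dbl (a v : List ℕ) : (dbl v).count a = (mg a).count v := by
  induction v generalizing a with
  | nil =>
    rw [dbl, List.count_nil]
    rcases a with _ | ⟨z, _ | ⟨y, a'⟩⟩
    · simp [mg]
    · simp [mg]
    · rw [mg, List.count_cons, C1_count_map_nil]
      simp
  | cons x v ih =>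
    rw [dbl, List.count_append, C1_count_anti]
    rcases a with _ | ⟨z, _ | ⟨y, a'⟩⟩
    · rw [C1_count_map_nil]
      simp [mg]
    · rw [C1_count_map_cons, ih]
      simp [mg]
    · rw [C1_count_map_cons, ih, mg, List.count_cons, C1_count_map_cons, add_comm]
      congr 1
      · simp only [eq_comm]
      · show (if z + y = x ∧ v = a' then 1 else 0) = _
        by_cases h : z + y = x ∧ v = a'
        · rw [if_pos h, h.1, h.2]; simp
        · rw [if_neg h, if_neg]
          intro h2
          rw [beq_iff_eq] at h2
          have h3 := List.cons.inj h2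
          exact h ⟨h3.1, h3.2.symm⟩

theorem F_eq_aeval {r : ℕ} (f : MvPolynomial (Fin r) ℚ) {B : Type*} [CommRing B] [Algebra ℚ B] (Z : List B)
    (hZ : Z.length = r + 1) : F f Z = aeval (fun i : Fin (r + 1) => Z.getD i 0) (Fp f) := by
  rcases Z with _ | ⟨y, w⟩
  · simp at hZ
  · have hw : w.length = r := by simpa using hZ
    unfold Fp
    change aeval (fun i : Fin r => (w.map fun z => z - y).getD i 0) f = _
    rw [← AlgHom.comp_apply, comp_aeval]
    congr 2
    funext i
    have hi : (i : ℕ) < w.length := hw ▸ i.2
    simp [List.getD_eq_getElem?_getD, List.getElem?_map, List.getElem?_eq_getElem hi]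

theorem C1_zip {B : Type*} [CommMonoid B] (Y : List B) (b : List ℕ) (h : b.length = Y.length + 1) :
    (dd Y).map (fun Z => (List.zipWith (· ^ ·) Z b).prod) =
      (mg b).map (fun u => (List.zipWith (· ^ ·) Y u).prod) := by
  induction Y generalizing b with
  | nil =>
    rcases b with _ | ⟨x, _ | ⟨y, b'⟩⟩
    · simp at h
    · simp [dd, mg]
    · simp at h
  | cons y w ih =>
    rcases b with _ | ⟨b1, _ | ⟨b2, b'⟩⟩
    · simp at h
    · simp at h
    · have h' : (b2 :: b').length = w.length + 1 := by simpa using h
      have ih' := ih (b2 :: b') h'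
      rw [dd, mg, List.map_cons, List.map_cons, List.map_map, List.map_map]
      congr 1
      · simp [pow_add, mul_assoc]
      · have e1 : ((fun Z : List B => (List.zipWith (· ^ ·) Z (b1 :: b2 :: b')).prod) ∘ fun x => y :: x) =
            (fun t => y ^ b1 * t) ∘ (fun Z : List B => (List.zipWith (· ^ ·) Z (b2 :: b')).prod) := by
          funext Z
          simp
        have e2 : ((fun u : List ℕ => (List.zipWith (· ^ ·) (y :: w) u).prod) ∘ fun x => b1 :: x) =
            (fun t => y ^ b1 * t) ∘ (fun u : List ℕ => (List.zipWith (· ^ ·) w u).prod) := by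
          funext u
          simp
        rw [e1, e2, ← List.map_map, ← List.map_map, ih']

theorem C1_zip_ofFn {B : Type*} [CommRing B] {n : ℕ} (Z : List B) (hZ : Z.length = n) (b : Fin n → ℕ) :
    (List.zipWith (· ^ ·) Z (List.ofFn b)).prod = ∏ i : Fin n, (Z.getD i 0) ^ b i := by
  rw [← List.prod_ofFn]
  congr 1
  apply List.ext_getElem
  · simp [hZ]
  · intro i h1 h2
    have h3 : i < Z.length := by
      simp at h1
      omega
    simp [List.getD_eq_getElem?_getD, List.getElem?_eq_getElem h3]

theorem C1_len_dd {α : Type*} (Y : List α) : ∀ Z ∈ dd Y, Z.length = Y.length + 1 := by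
  induction Y with
  | nil => simp [dd]
  | cons y w ih =>
    intro Z hZ
    rw [dd, List.mem_cons, List.mem_map] at hZ
    rcases hZ with rfl | ⟨Z', h1, rfl⟩
    · simp
    · simp [ih Z' h1]

theorem C1_len_dbl (v : List ℕ) : ∀ a ∈ dbl v, a.length = v.length + 1 := by
  induction v with
  | nil => simp [dbl]
  | cons x v ih =>
    intro a ha
    rw [dbl, List.mem_append, List.mem_map, List.mem_map] at ha
    rcases ha with ⟨p, -, rfl⟩ | ⟨a', h1, rfl⟩
    · simp
    · simp [ih a' h1]

theorem C1_len_mg (a : List ℕ) : ∀ u ∈ mg a, u.length + 1 = a.length := by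
  induction a with
  | nil => simp [mg]
  | cons x a ih =>
    rcases a with _ | ⟨y, a⟩
    · simp [mg]
    · intro u hu
      rw [mg, List.mem_cons, List.mem_map] at hu
      rcases hu with rfl | ⟨u', h1, rfl⟩
      · simp
      · have := ih u' h1
        simp at this ⊢
        omega

theorem C1_ofFn_fs {n : ℕ} (a : List ℕ) (h : a.length = n) : List.ofFn (fs (n := n) a) = a := by
  apply List.ext_getElem
  · simp [h]
  · intro i h1 h2
    simp [fs, List.getD_eq_getElem?_getD, List.getElem?_eq_getElem h2]

theorem C1_fs_inj {n : ℕ} {a b : List ℕ} (ha : a.length = n) (hb : b.length = n)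
    (h : (fs a : Fin n →₀ ℕ) = fs b) : a = b := by
  rw [← C1_ofFn_fs a ha, ← C1_ofFn_fs b hb, h]

theorem C1_X_zip {r : ℕ} (u : List ℕ) (hu : u.length = r) :
    (List.zipWith (· ^ ·) (List.ofFn (X : Fin r → MvPolynomial (Fin r) ℚ)) u).prod = monomial (fs u) 1 := by
  have h := C1_zip_ofFn (List.ofFn (X : Fin r → MvPolynomial (Fin r) ℚ)) (by simp) (fs (n := r) u)
  rw [C1_ofFn_fs u hu] at h
  rw [h, monomial_eq, Finsupp.prod_fintype _ _ (by simp)]
  simp [List.getD_eq_getElem?_getD]

theorem C1_sum_ite {α : Type*} [BEq α] [LawfulBEq α] (l : List α) (a : α) (P : α → Prop) [DecidablePred P]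
    (h : ∀ x ∈ l, P x ↔ x = a) (c : ℚ) : (l.map fun x => if P x then c else 0).sum = c * l.count a := by
  induction l with
  | nil => simp
  | cons x l ih =>
    rw [List.map_cons, List.sum_cons, ih (fun y hy => h y (List.mem_cons_of_mem _ hy)), List.count_cons]
    have h1 := h x List.mem_cons_self
    by_cases hx : x = a
    · rw [if_pos (h1.2 hx), if_pos (by simpa using hx)]
      push_cast; ring
    · rw [if_neg (fun h2 => hx (h1.1 h2)), if_neg (by simpa using hx)]
      push_cast; ring

theorem C1_main {r : ℕ} (P : MvPolynomial (Fin (r + 1)) ℚ) (v : List ℕ) (hv : v.length = r) :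
    coeff (fs v) ((dd (List.ofFn (X : Fin r → MvPolynomial (Fin r) ℚ))).map
      (fun Z => aeval (fun i : Fin (r + 1) => Z.getD i 0) P)).sum =
      ((dbl v).map fun a => coeff (fs a) P).sum := by
  classical
  induction P using MvPolynomial.induction_on' with
  | add p q hp hq =>
    simp only [map_add, List.sum_map_add, coeff_add, hp, hq]
  | monomial b c =>
    set Y := List.ofFn (X : Fin r → MvPolynomial (Fin r) ℚ) with hY
    have hYl : Y.length = r := by simp [hY]
    have hB : (List.ofFn b).length = Y.length + 1 := by simp [hYl]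
    -- right side
    have hR : ((dbl v).map fun a => coeff (fs a) (monomial b c)).sum = c * (dbl v).count (List.ofFn b) := by
      simp only [coeff_monomial]
      apply C1_sum_ite
      intro a ha
      have hl : a.length = r + 1 := by rw [C1_len_dbl v a ha, hv]
      constructor
      · intro h
        rw [h, C1_ofFn_fs a hl]
      · intro h
        apply Finsupp.ext
        intro i
        have h2 : i.1 < a.length := by omega
        subst h
        show b i = (List.ofFn b).getD i 0
        rw [List.getD_eq_getElem _ _ h2, List.getElem_ofFn]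
    rw [hR]
    have hL : (dd Y).map (fun Z => aeval (fun i : Fin (r + 1) => Z.getD i 0) (monomial b c)) =
        (mg (List.ofFn b)).map (fun u => MvPolynomial.C c * monomial (fs u) 1) := by
      have h1 : (dd Y).map (fun Z => aeval (fun i : Fin (r + 1) => Z.getD i 0) (monomial b c)) =
          ((dd Y).map (fun Z => (List.zipWith (· ^ ·) Z (List.ofFn b)).prod)).map (fun t => MvPolynomial.C c * t) := by
        rw [List.map_map]
        apply List.map_congr_left
        intro Z hZ
        have hl : Z.length = r + 1 := by rw [C1_len_dd Y Z hZ, hYl]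
        rw [Function.comp_apply, C1_zip_ofFn Z hl, aeval_monomial, Finsupp.prod_fintype _ _ (by simp)]
        rfl
      rw [h1, C1_zip Y _ hB, List.map_map]
      apply List.map_congr_left
      intro u hu
      have hl : u.length = r := by
        have := C1_len_mg _ u hu
        simp at this
        omega
      rw [Function.comp_apply, hY, C1_X_zip u hl]
    rw [hL, count_dbl]
    have h3 : ∀ l : List (MvPolynomial (Fin r) ℚ), coeff (fs v) l.sum = (l.map (coeff (fs v))).sum := by
      intro l
      induction l with
      | nil => simp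
      | cons x l ih => simp [ih]
    rw [h3, List.map_map]
    have h4 : (mg (List.ofFn b)).map (coeff (fs v) ∘
        fun u => (MvPolynomial.C c * monomial (fs u) 1 : MvPolynomial (Fin r) ℚ)) =
        (mg (List.ofFn b)).map (fun u => if (fs u : Fin r →₀ ℕ) = fs v then c else 0) := by
      apply List.map_congr_left
      intro u _
      rw [Function.comp_apply, coeff_C_mul, coeff_monomial]
      split_ifs <;> simp
    rw [h4]
    apply C1_sum_ite
    intro u hu
    have hl : u.length = r := by
      have := C1_len_mg _ u hu
      simp at this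
      omega
    exact ⟨fun h => C1_fs_inj hl hv h, fun h => by rw [h]⟩

theorem cf_dbl {r : ℕ} (f : MvPolynomial (Fin r) ℚ)
    (h : ∀ Y : List (MvPolynomial (Fin r) ℚ), Y.length = r → ((dd Y).map (F f)).sum = 0)
    (v : List ℕ) (hv : v.length = r) : ((dbl v).map (cf f)).sum = 0 := by
  have h1 := C1_main (Fp f) v hv
  have h2 : (dd (List.ofFn (X : Fin r → MvPolynomial (Fin r) ℚ))).map
      (fun Z => aeval (fun i : Fin (r + 1) => Z.getD i 0) (Fp f)) =
      (dd (List.ofFn (X : Fin r → MvPolynomial (Fin r) ℚ))).map (F f) := by
    apply List.map_congr_left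
    intro Z hZ
    rw [F_eq_aeval f Z]
    rw [C1_len_dd _ Z hZ]
    simp
  rw [h2, h _ (by simp)] at h1
  rw [coeff_zero] at h1
  exact h1.symm

end Dsh
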