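import Pool.Agent.Lib.MP_720dbd_nt.Wds

/-! Row C2: coefficients of the insertion relation. cf f (0 :: b) is the coefficient of x^b in f (set X 0 = 0 in Fp f).
In h take w = r - 1 variables (for instance the first r - 1 variables X of MvPolynomial (Fin r)) and compare the
coefficients of the monomial with exponents a: f at the list w with 0 inserted at place p has there the coefficient of f at a
with 0 inserted at place p. -/

namespace Dsh
open MvPolynomial

theorem C2_fs_apply {n : ℕ} (a : List ℕ) (i : Fin n) : (fs a : Fin n →₀ ℕ) i = a.getD i 0 := rfl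

theorem C2_coeff_killCompl {σ τ : Type*} {φ : σ → τ} (hφ : Function.Injective φ) (P : MvPolynomial τ ℚ)
    (m : σ →₀ ℕ) : coeff m (killCompl hφ P) = coeff (Finsupp.mapDomain φ m) P := by
  classical
  induction P using MvPolynomial.induction_on' with
  | monomial s c =>
    by_cases h : ∀ i ∈ s.support, i ∈ Set.range φ
    · have hs : Finsupp.mapDomain φ (Finsupp.comapDomain φ s hφ.injOn) = s :=
        Finsupp.mapDomain_comapDomain φ hφ s fun i hi => h i (by simpa using hi)
      rw [← hs, ← rename_monomial, killCompl_rename_app, coeff_rename_mapDomain _ hφ]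
    · push Not at h
      obtain ⟨i, hi, hn⟩ := h
      have hk : killCompl hφ (monomial s c) = 0 := by
        unfold killCompl
        rw [aeval_monomial]
        have : (s.prod fun i k => (if h : i ∈ Set.range φ then
            (X ((Equiv.ofInjective φ hφ).symm ⟨i, h⟩) : MvPolynomial σ ℚ) else 0) ^ k) = 0 := by
          refine Finset.prod_eq_zero hi ?_
          beta_reduce
          rw [dif_neg hn, zero_pow (Finsupp.mem_support_iff.1 hi)]
        rw [this, mul_zero]
      rw [hk, coeff_zero, coeff_monomial, if_neg]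
      rintro rfl
      exact Finsupp.mem_support_iff.1 hi (Finsupp.mapDomain_of_notMem_range _ _ hn)
  | add p q hp hq => rw [map_add, coeff_add, coeff_add, hp, hq]

theorem cf_zero_cons {r : ℕ} (f : MvPolynomial (Fin r) ℚ) (b : List ℕ) (hb : b.length = r) :
    cf f (0 :: b) = coeff (fs b) f := by
  have h0 : (fs (0 :: b) : Fin (r + 1) →₀ ℕ) = Finsupp.mapDomain Fin.succ (fs b) := by
    ext i
    refine Fin.cases ?_ (fun j => ?_) i
    · rw [Finsupp.mapDomain_of_notMem_range _ _ (by simp), C2_fs_apply]
      simp
    · rw [Finsupp.mapDomain_apply (Fin.succ_injective r), C2_fs_apply, C2_fs_apply]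
      simp
  rw [cf, h0, ← C2_coeff_killCompl (Fin.succ_injective r)]
  congr 1
  unfold Fp
  rw [← AlgHom.comp_apply, comp_aeval]
  have : (fun i : Fin r => killCompl (Fin.succ_injective r) (X i.succ - X 0 : MvPolynomial (Fin (r + 1)) ℚ)) = X := by
    funext i
    have h1 : killCompl (Fin.succ_injective r) (X i.succ : MvPolynomial (Fin (r + 1)) ℚ) = X i := by
      have := killCompl_rename_app (Fin.succ_injective r) (X i : MvPolynomial (Fin r) ℚ)
      rwa [rename_X] at this
    have h2 : killCompl (Fin.succ_injective r) (X 0 : MvPolynomial (Fin (r + 1)) ℚ) = 0 := by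
      unfold killCompl
      rw [aeval_X, dif_neg (by simp)]
    rw [map_sub, h1, h2, sub_zero]
  rw [this, aeval_X_left_apply]

theorem C2_ins_eq {α : Type*} (x : α) (w : List α) :
    ins x w = (List.range (w.length + 1)).map fun p => w.insertIdx p x := by
  induction w with
  | nil => simp [ins]
  | cons y w ih =>
    rw [ins, ih, List.length_cons, List.range_succ_eq_map (n := w.length + 1)]
    simp [List.map_map, Function.comp_def]

theorem C2_getD_insertIdx {α : Type*} (w : List α) (x z : α) (n : ℕ) (hw : w.length = n) (p : Fin (n + 1)) :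
    (w.insertIdx p x).getD p z = x ∧ ∀ j : Fin n, (w.insertIdx p x).getD (p.succAbove j) z = w.getD j z := by
  subst hw
  constructor
  · rw [List.getD_eq_getElem?_getD, List.getElem?_insertIdx]
    simp [p.is_le]
  · intro j
    rw [List.getD_eq_getElem?_getD, List.getD_eq_getElem?_getD, List.getElem?_insertIdx]
    rcases lt_or_ge j.castSucc p with h | h
    · rw [Fin.succAbove_of_castSucc_lt p j h]
      have : (j : ℕ) < p := h
      simp [this]
    · rw [Fin.succAbove_of_le_castSucc p j h]
      have : (p : ℕ) ≤ j := h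
      rw [if_neg (by simp; omega), if_neg (by simp; omega)]
      simp

theorem C2_one {n : ℕ} (f : MvPolynomial (Fin (n + 1)) ℚ) (a : List ℕ) (ha : a.length = n) (p : Fin (n + 1)) :
    coeff (fs a) (ev f ((List.ofFn fun j : Fin n => (X j.castSucc : MvPolynomial (Fin (n + 1)) ℚ)).insertIdx p 0)) =
      coeff (fs (a.insertIdx p 0)) f := by
  have hinj : Function.Injective p.succAbove := Fin.succAbove_right_injective
  have h1 : ev f ((List.ofFn fun j : Fin n => (X j.castSucc : MvPolynomial (Fin (n + 1)) ℚ)).insertIdx p 0) =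
      rename Fin.castSucc (killCompl hinj f) := by
    unfold ev
    rw [rename_eq_aeval, ← AlgHom.comp_apply]
    congr 1
    refine algHom_ext fun i => ?_
    rw [aeval_X]
    by_cases hi : i = p
    · subst hi
      rw [(C2_getD_insertIdx _ _ _ n (by simp) i).1, AlgHom.comp_apply]
      unfold killCompl
      rw [aeval_X, dif_neg (by simp), map_zero]
    · obtain ⟨j, rfl⟩ := Fin.exists_succAbove_eq hi
      rw [(C2_getD_insertIdx _ _ _ n (by simp) p).2 j, AlgHom.comp_apply]
      have := killCompl_rename_app hinj (X j : MvPolynomial (Fin n) ℚ)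
      rw [rename_X] at this
      rw [this, aeval_X, List.getD_eq_getElem?_getD, List.getElem?_ofFn]
      simp
  have h2 : (fs a : Fin (n + 1) →₀ ℕ) = Finsupp.mapDomain Fin.castSucc (fs a : Fin n →₀ ℕ) := by
    ext i
    refine Fin.lastCases ?_ (fun j => ?_) i
    · rw [Finsupp.mapDomain_of_notMem_range _ _ (by
        rintro ⟨j, hj⟩
        exact (Fin.castSucc_lt_last j).ne hj), C2_fs_apply, List.getD_eq_getElem?_getD,
        List.getElem?_eq_none (by simp [ha])]
      rfl
    · rw [Finsupp.mapDomain_apply (Fin.castSucc_injective n), C2_fs_apply, C2_fs_apply]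
      simp
  have h3 : (fs (a.insertIdx p 0) : Fin (n + 1) →₀ ℕ) = Finsupp.mapDomain p.succAbove (fs a) := by
    ext i
    by_cases hi : i = p
    · subst hi
      rw [Finsupp.mapDomain_of_notMem_range _ _ (by simp), C2_fs_apply, (C2_getD_insertIdx _ _ _ n ha i).1]
    · obtain ⟨j, rfl⟩ := Fin.exists_succAbove_eq hi
      rw [Finsupp.mapDomain_apply hinj, C2_fs_apply, C2_fs_apply, (C2_getD_insertIdx _ _ _ n ha p).2 j]
  rw [h1, h2, coeff_rename_mapDomain _ (Fin.castSucc_injective n), C2_coeff_killCompl, h3]

theorem cf_ins {r : ℕ} (f : MvPolynomial (Fin r) ℚ)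
    (h : ∀ w : List (MvPolynomial (Fin r) ℚ), w.length + 1 = r → ((ins 0 w).map (ev f)).sum = 0)
    (a : List ℕ) (ha : a.length + 1 = r) : ((ins 0 a).map fun b => cf f (0 :: b)).sum = 0 := by
  subst ha
  have h1 := h (List.ofFn fun j : Fin a.length => (X j.castSucc : MvPolynomial (Fin (a.length + 1)) ℚ)) (by simp)
  have h2 := congrArg (coeffAddMonoidHom (R := ℚ) (fs a : Fin (a.length + 1) →₀ ℕ)) h1
  rw [map_list_sum, map_zero] at h2
  rw [← h2, C2_ins_eq, C2_ins_eq, List.length_ofFn, List.map_map, List.map_map, List.map_map]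
  congr 1
  refine List.map_congr_left fun p hp => ?_
  have hp' : p < a.length + 1 := List.mem_range.1 hp
  simp only [Function.comp_apply, coeffAddMonoidHom_apply]
  rw [cf_zero_cons f _ (by rw [List.length_insertIdx_of_le_length (by omega)])]
  exact (C2_one f a rfl ⟨p, hp'⟩).symm

end Dsh
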