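import Pool.Agent.Lib.MP_720dbd_nt.Wds

/-! Row C3: coefficients of the cyclic relation (take z, w = the variables; F f (z :: w) is a renaming of Fp f, or Fp f
itself), and the end of the proof: F has no coefficients, so f = 0 (f is Fp f at X 0 -> 0, X (i+1) -> X i; Fp f is
homogeneous of degree d). -/

namespace Dsh
open MvPolynomial

theorem C3_fs_apply {n : ℕ} (a : List ℕ) (i : Fin n) : (fs a : Fin n →₀ ℕ) i = a.getD i 0 := rfl

/-- `F f Z` is the value of `Fp f` at the list `Z`. -/
theorem C3_F_eq {r : ℕ} (f : MvPolynomial (Fin r) ℚ) {B : Type*} [CommRing B] [Algebra ℚ B] (Z : List B)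
    (hZ : Z.length = r + 1) : F f Z = aeval (fun i : Fin (r + 1) => Z.getD i 0) (Fp f) := by
  cases Z with
  | nil => simp at hZ
  | cons y w =>
    have hw : w.length = r := by simpa using hZ
    simp only [F, Fp, ev]
    rw [← AlgHom.comp_apply, comp_aeval]
    congr 2
    funext i
    have hi : (i : ℕ) < w.length := by rw [hw]; exact i.2
    simp [List.getD_eq_getElem?_getD, hi]

theorem cf_rotate {r : ℕ} (f : MvPolynomial (Fin r) ℚ)
    (h : ∀ (z : MvPolynomial (Fin (r + 1)) ℚ) (w : List (MvPolynomial (Fin (r + 1)) ℚ)), w.length = r →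
      F f (z :: w) = F f (w ++ [z]))
    (x : ℕ) (a : List ℕ) (ha : a.length = r) : cf f (x :: a) = cf f (a ++ [x]) := by
  have h1 := h (X 0) (List.ofFn fun i : Fin r => X i.succ) (by simp)
  rw [C3_F_eq f _ (by simp), C3_F_eq f _ (by simp)] at h1
  have e1 : (fun i : Fin (r + 1) => ((X 0 : MvPolynomial (Fin (r + 1)) ℚ) ::
      List.ofFn fun i : Fin r => (X i.succ : MvPolynomial (Fin (r + 1)) ℚ)).getD i 0) = X := by
    funext i
    refine Fin.cases ?_ (fun j => ?_) i
    · simp
    · simp [List.getD_eq_getElem?_getD]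
  have e2 : (fun i : Fin (r + 1) => ((List.ofFn fun i : Fin r => (X i.succ : MvPolynomial (Fin (r + 1)) ℚ)) ++
      [(X 0 : MvPolynomial (Fin (r + 1)) ℚ)]).getD i 0) = fun i => X (finRotate (r + 1) i) := by
    funext i
    refine Fin.lastCases ?_ (fun j => ?_) i
    · simp [List.getD_eq_getElem?_getD]
    · rw [List.getD_append _ _ _ _ (by simp)]
      have : finRotate (r + 1) j.castSucc = j.succ := by
        rw [finRotate_apply]; simp
      rw [this]
      simp [List.getD_eq_getElem?_getD]
  rw [e1, e2, aeval_X_left_apply] at h1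
  have h2 : Fp f = rename (finRotate (r + 1)) (Fp f) := by
    conv_lhs => rw [h1]
    rw [rename_eq_aeval]
    rfl
  have h3 : (fs (x :: a) : Fin (r + 1) →₀ ℕ) = Finsupp.mapDomain (finRotate (r + 1)) (fs (a ++ [x])) := by
    ext i
    obtain ⟨j, rfl⟩ := (finRotate (r + 1)).surjective i
    rw [Finsupp.mapDomain_apply (finRotate (r + 1)).injective, C3_fs_apply, C3_fs_apply]
    refine Fin.lastCases ?_ (fun j => ?_) j
    · simp [List.getD_eq_getElem?_getD, ← ha]
    · have : finRotate (r + 1) j.castSucc = j.succ := by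
        rw [finRotate_apply]; simp
      rw [this, List.getD_append _ _ _ _ (by simp [ha])]
      simp
  unfold cf
  rw [h3]
  conv_lhs => rw [h2]
  rw [coeff_rename_mapDomain _ (finRotate (r + 1)).injective]

theorem f_zero {r d : ℕ} (f : MvPolynomial (Fin r) ℚ) (hf : f.IsHomogeneous d)
    (h : ∀ a : List ℕ, a.length = r + 1 → a.sum = d → cf f a = 0) : f = 0 := by
  have hF : (Fp f).IsHomogeneous (1 * d) :=
    hf.aeval _ fun i => (isHomogeneous_X ℚ _).sub (isHomogeneous_X ℚ _)
  rw [one_mul] at hF
  have hz : Fp f = 0 := by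
    ext m
    rw [coeff_zero]
    by_cases hm : Finsupp.degree m = d
    · have hfs : (fs (List.ofFn fun i => m i) : Fin (r + 1) →₀ ℕ) = m := by
        ext i
        rw [C3_fs_apply, List.getD_eq_getElem?_getD, List.getElem?_ofFn]
        simp [i.is_le]
      have := h (List.ofFn fun i => m i) (by simp) (by
        rw [List.sum_ofFn, ← hm, Finsupp.degree_eq_sum])
      rwa [cf, hfs] at this
    · exact hF.coeff_eq_zero hm
  have hb : aeval (fun i : Fin (r + 1) => Fin.cases (0 : MvPolynomial (Fin r) ℚ) (fun j => X j) i) (Fp f) = f := by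
    unfold Fp
    rw [← AlgHom.comp_apply, comp_aeval]
    have : (fun i : Fin r => (aeval fun i : Fin (r + 1) =>
        (Fin.cases (0 : MvPolynomial (Fin r) ℚ) (fun j => X j) i : MvPolynomial (Fin r) ℚ))
        (X i.succ - X 0 : MvPolynomial (Fin (r + 1)) ℚ)) = X := by
      funext i
      simp
    rw [this, aeval_X_left_apply]
  rw [← hb, hz, map_zero]

end Dsh
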