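import Mathlib

/-! Linearised double shuffle: public definitions. -/

namespace Dsh
open MvPolynomial

/-- the list of all shuffles of two words -/
def sh {α : Type*} : List α → List α → List (List α)
  | [], v => [v]
  | a :: u, [] => [a :: u]
  | a :: u, b :: v => (sh u (b :: v)).map (a :: ·) ++ (sh (a :: u) v).map (b :: ·)
termination_by u v => u.length + v.length

/-- f(w_1, ..., w_r) -/
noncomputable def ev {r : ℕ} {B : Type*} [CommRing B] [Algebra ℚ B] (f : MvPolynomial (Fin r) ℚ) (w : List B) : B :=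
  aeval (fun i : Fin r => w.getD i 0) f

/-- the word x_1 x_2 ... x_r -/
noncomputable def xs (r : ℕ) : List (MvPolynomial (Fin r) ℚ) := List.ofFn X

/-- the polynomial f(x_1, x_1 + x_2, ..., x_1 + ... + x_r) -/
noncomputable def sharp {r : ℕ} (f : MvPolynomial (Fin r) ℚ) : MvPolynomial (Fin r) ℚ :=
  aeval (fun j : Fin r => ∑ i ∈ Finset.Iic j, X i) f

/-- for every 1 <= i < r the sum of f over all shuffles of x_1 ... x_i with x_(i+1) ... x_r is 0 -/
def Shuf {r : ℕ} (f : MvPolynomial (Fin r) ℚ) : Prop :=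
  ∀ i, 1 ≤ i → i < r → ((sh ((xs r).take i) ((xs r).drop i)).map (ev f)).sum = 0

/-- the linearised double shuffle relations (the space D_r for r >= 2) -/
def DShuf {r : ℕ} (f : MvPolynomial (Fin r) ℚ) : Prop := Shuf f ∧ Shuf (sharp f)

end Dsh
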