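import Pool.Agent.Lib.MP_720dbd_nt.Wds

/-! Row S2: f sharp at w is f at the partial sums of w; basic facts on psl. -/

namespace Dsh
open MvPolynomial

theorem length_psl {B : Type*} [Add B] (s : B) (w : List B) : (psl s w).length = w.length := by
  induction w generalizing s with
  | nil => rfl
  | cons x w ih => simp [psl, ih]

theorem S2_getD_psl {B : Type*} [AddCommMonoid B] (s : B) (w : List B) (j : ℕ) (hj : j < w.length) :
    (psl s w).getD j 0 = s + ∑ i ∈ Finset.range (j + 1), w.getD i 0 := by
  induction w generalizing s j with
  | nil => simp at hj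
  | cons x w ih =>
    cases j with
    | zero => simp [psl]
    | succ j =>
      rw [Finset.sum_range_succ']
      have := ih (s + x) j (by simpa using hj)
      simp only [psl, List.getD_cons_succ, List.getD_cons_zero, this]
      abel

theorem ev_sharp {r : ℕ} (f : MvPolynomial (Fin r) ℚ) {B : Type*} [CommRing B] [Algebra ℚ B] (w : List B)
    (hw : w.length = r) : ev (sharp f) w = ev f (psl 0 w) := by
  unfold ev sharp
  rw [← AlgHom.comp_apply]
  congr 1
  apply MvPolynomial.algHom_ext
  intro j
  rw [AlgHom.comp_apply, aeval_X, aeval_X, map_sum, S2_getD_psl 0 w j (by rw [hw]; exact j.2), zero_add]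
  simp only [aeval_X]
  refine Finset.sum_bij (fun i _ => (i : ℕ)) ?_ ?_ ?_ ?_
  · intro i hi
    have : (i : ℕ) ≤ j := by simpa using hi
    simp; omega
  · intro a _ b _ h
    exact Fin.ext h
  · intro b hb
    have hb' : b < j + 1 := by simpa using hb
    refine ⟨⟨b, by have := j.2; omega⟩, ?_, rfl⟩
    simp only [Finset.mem_Iic, Fin.le_def]
    omega
  · intro a _
    rfl

/-- every list is a list of partial sums -/
theorem exists_psl {B : Type*} [AddCommGroup B] (s : B) (y : List B) : ∃ x : List B, x.length = y.length ∧ psl s x = y := by
  induction y generalizing s with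
  | nil => exact ⟨[], rfl, rfl⟩
  | cons b y ih =>
    obtain ⟨x, hx, hp⟩ := ih b
    refine ⟨(b - s) :: x, by simp [hx], ?_⟩
    simp [psl, hp]

theorem S2_psl_append {B : Type*} [AddCommMonoid B] (s : B) (u : List B) (a : B) :
    psl s (u ++ [a]) = psl s u ++ [s + u.sum + a] := by
  induction u generalizing s with
  | nil => simp [psl]
  | cons x u ih => simp [psl, ih, add_assoc]

theorem S2_reverse {B : Type*} [AddCommGroup B] (s : B) (x : List B) :
    (psl 0 x.reverse).reverse = ((s :: psl s x).dropLast).map (fun t => s + x.sum - t) := by
  induction x generalizing s with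
  | nil => simp [psl]
  | cons a x ih =>
    rw [List.reverse_cons, S2_psl_append, List.reverse_append, ih (s + a)]
    simp only [psl, List.reverse_singleton, List.singleton_append, List.dropLast_cons_cons, List.map_cons, List.sum_cons,
      List.sum_reverse]
    congr 1
    · abel
    · apply List.map_congr_left
      intro t _
      abel

theorem S2_getLast {B : Type*} [AddCommMonoid B] (s : B) (x : List B) :
    (s :: psl s x).getLast (by simp) = s + x.sum := by
  induction x generalizing s with
  | nil => simp [psl]
  | cons a x ih =>
    have := ih (s + a)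
    simp only [psl, List.getLast_cons_cons, List.sum_cons]
    rw [this, add_assoc]

/-- partial sums of the reversed list -/
theorem psl_reverse {B : Type*} [AddCommGroup B] (x : List B) (y : List B) (z : B) (h : psl 0 x = y ++ [z]) :
    (psl 0 x.reverse).reverse = z :: y.map (fun t => z - t) := by
  have h1 := S2_reverse 0 x
  have h2 := S2_getLast 0 x
  have hz : z = x.sum := by
    have : (0 :: psl 0 x).getLast (by simp) = z := by
      simp [h]
    rw [← this, h2, zero_add]
  rw [h1, h]
  have : (0 :: (y ++ [z])).dropLast = 0 :: y := by
    rw [← List.cons_append, List.dropLast_concat]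
  rw [this, List.map_cons, zero_add, sub_zero, ← hz]

end Dsh
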