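import Pool.Agent.Lib.MP_720dbd_nt.Wds

/-! Row S3: a functional which kills the proper shuffles changes by the sign (-1)^(n+1) under reversal.
Proof: the alternating sum over i = 0..n of sh (reverse of the first i letters) (the last n - i letters) telescopes
to 0: with b_i = (i-th letter) :: sh (rev of first i-1) (last n-i) (letters numbered from 1) one has
sh (rev first i) (last n-i) = b_i ++ b_(i+1) for 1 <= i < n, = b_1 for i = 0 and = b_n for i = n. -/

namespace Dsh
open MvPolynomial

theorem S3_sh_nil {α : Type*} (u : List α) : sh u [] = [u] := by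
  cases u <;> simp [sh]

theorem S3_nil_sh {α : Type*} (v : List α) : sh [] v = [v] := by
  simp [sh]

theorem S3_step {α M : Type*} [AddCommGroup M] (φ : List α → M) (n : ℕ)
    (h : ∀ u v : List α, u ≠ [] → v ≠ [] → u.length + v.length = n → ((sh u v).map φ).sum = 0) :
    ∀ (v u : List α) (a : α), u.length + 1 + v.length = n →
      ((sh u v).map (fun z => φ (a :: z))).sum = (-1 : ℤ) ^ v.length • φ (v.reverse ++ a :: u) := by
  intro v
  induction v with
  | nil =>
    intro u a _
    rw [S3_sh_nil]
    simp
  | cons c v ih =>
    intro u a hl
    have h1 := h (a :: u) (c :: v) (by simp) (by simp) (by simpa using hl)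
    rw [sh, List.map_append, List.sum_append, List.map_map, List.map_map] at h1
    have h2 := ih (a :: u) c (by
      simp only [List.length_cons] at hl ⊢
      omega)
    have h3 : ((sh u (c :: v)).map (fun z => φ (a :: z))).sum = -((sh (a :: u) v).map (fun z => φ (c :: z))).sum :=
      eq_neg_of_add_eq_zero_left h1
    rw [h3, h2, List.length_cons, pow_succ, mul_neg_one, neg_smul, List.reverse_cons, List.append_assoc,
      List.singleton_append]

theorem rev_of_sh {α M : Type*} [AddCommGroup M] (φ : List α → M) (n : ℕ) (hn : 1 ≤ n)
    (h : ∀ u v : List α, u ≠ [] → v ≠ [] → u.length + v.length = n → ((sh u v).map φ).sum = 0)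
    (w : List α) (hw : w.length = n) : φ w.reverse = (-1 : ℤ) ^ (n + 1) • φ w := by
  cases w with
  | nil => simp at hw; omega
  | cons c w =>
    have h1 := S3_step φ n h w [] c (by simp at hw ⊢; omega)
    rw [S3_nil_sh] at h1
    simp only [List.map_cons, List.map_nil, List.sum_cons, List.sum_nil, add_zero] at h1
    have h2 : n = w.length + 1 := by simpa using hw.symm
    rw [List.reverse_cons, h1, smul_smul, h2, ← pow_add]
    have h3 : w.length + 1 + 1 + w.length = 2 * (w.length + 1) := by ring
    rw [h3, pow_mul]
    simp

end Dsh
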