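import Pool.Agent.Lib.MP_720dbd_nt.S1
import Pool.Agent.Lib.MP_720dbd_nt.S2
import Pool.Agent.Lib.MP_720dbd_nt.S3

/-! Row S4: cyclic invariance of F for even degree. By translation one may take the first entry of w to be 0:
w = 0 :: y, z the new last entry. Let x with psl 0 x = y ++ [z] (exists_psl). rev_of_sh for ev f and for ev (sharp f)
(hypotheses by Shuf.subst), ev_sharp and psl_reverse give ev f (z :: y.map (z - ·)) = ev f (y ++ [z]) (the two signs
cancel); f homogeneous of even degree: ev f (w.map Neg.neg) = ev f w. -/

namespace Dsh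
open MvPolynomial

theorem ev_neg {r d : ℕ} (hd : Even d) (f : MvPolynomial (Fin r) ℚ) (hf : f.IsHomogeneous d) {B : Type*}
    [CommRing B] [Algebra ℚ B] (w : List B) : ev f (w.map fun t => -t) = ev f w := by
  unfold ev
  have h1 : ∀ i : Fin r, (w.map fun t => -t).getD i 0 = - w.getD i 0 := by
    intro i
    simp only [List.getD_eq_getElem?_getD, List.getElem?_map]
    cases w[i.1]? with
    | none => simp
    | some y => simp
  simp only [h1]
  rw [aeval_def, aeval_def, eval₂_eq', eval₂_eq']
  apply Finset.sum_congr rfl
  intro s hs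
  have h2 : ∏ i : Fin r, (- w.getD i 0) ^ s i = ∏ i : Fin r, (w.getD i 0) ^ s i := by
    have h3 : ∀ i : Fin r, (- w.getD i 0) ^ s i = (-1) ^ s i * (w.getD i 0) ^ s i := by
      intro i
      rw [← mul_pow]
      congr 1
      ring
    rw [Finset.prod_congr rfl fun i _ => h3 i, Finset.prod_mul_distrib, Finset.prod_pow_eq_pow_sum]
    have h4 : ∑ i : Fin r, s i = d := by
      have h5 := hf (mem_support_iff.mp hs)
      rw [← h5, Finsupp.weight_apply, Finsupp.sum_fintype]
      · simp
      · simp
    rw [h4, hd.neg_one_pow, one_mul]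
  rw [h2]

theorem F_cyc {r d : ℕ} (hr : 1 ≤ r) (hd : Even d) (f : MvPolynomial (Fin r) ℚ) (hf : f.IsHomogeneous d) (hD : DShuf f)
    {B : Type*} [CommRing B] [Algebra ℚ B] (z : B) (w : List B) (hw : w.length = r) :
    F f (z :: w) = F f (w ++ [z]) := by
  cases w with
  | nil => simp at hw; omega
  | cons w0 w' =>
    have hw' : w'.length + 1 = r := by simpa using hw
    set y := w'.map fun t => t - w0 with hy
    set z' := z - w0 with hz
    have hyl : y.length + 1 = r := by rw [hy, List.length_map, hw']
    have e1 : F f (w0 :: w' ++ [z]) = ev f (y ++ [z']) := by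
      simp only [List.cons_append, F, List.map_append, List.map_cons, List.map_nil]
      rw [← hy, ← hz]
    have e2 : F f (z :: w0 :: w') = ev f (z' :: y.map fun t => z' - t) := by
      rw [← ev_neg hd f hf (z' :: y.map fun t => z' - t)]
      simp only [F, List.map_cons]
      congr 2
      · rw [hz]; ring
      · rw [List.map_map, hy, List.map_map]
        apply List.map_congr_left
        intro t _
        simp only [Function.comp_apply]
        rw [hz]
        ring
    obtain ⟨x, hxl, hx⟩ := exists_psl (0 : B) (y ++ [z'])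
    have hxr : x.length = r := by rw [hxl]; simp [hyl]
    have s1 : ∀ L : List B, L.length = r → ev f L.reverse = (-1 : ℤ) ^ (r + 1) • ev f L := by
      intro L hL
      exact rev_of_sh (ev f) r hr (fun u v hu hv hl => hD.1.subst u v hu hv hl) L hL
    have s2 : ∀ L : List B, L.length = r → ev (sharp f) L.reverse = (-1 : ℤ) ^ (r + 1) • ev (sharp f) L := by
      intro L hL
      exact rev_of_sh (ev (sharp f)) r hr (fun u v hu hv hl => hD.2.subst u v hu hv hl) L hL
    have p1 : (psl 0 x.reverse).length = r := by rw [length_psl, List.length_reverse, hxr]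
    have p2 := psl_reverse x y z' hx
    rw [e1, e2, ← p2, s1 _ p1, ← ev_sharp f x.reverse (by rw [List.length_reverse, hxr]), s2 x hxr,
      ev_sharp f x hxr, hx, smul_smul, ← pow_add, Even.neg_one_pow ⟨r + 1, rfl⟩, one_smul]

end Dsh
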