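import Pool.Agent.Lib.MP_720dbd_nt.S1
import Pool.Agent.Lib.MP_720dbd_nt.S2

/-! Row S5: shuffles with one zero letter. F_dd: Y = y :: Y', x with psl 0 x = Y'.map (· - y) (length r - 1 >= 1); apply
Shuf.subst to sharp f with u = [0], v = x, then ev_sharp: the partial sums of the insertions of 0 in x are the lists
Z with first entry removed and y subtracted, Z in dd Y, in the same order (prove for general start s:
(ins 0 x).map (psl s) = the tails of dd (s :: psl s x)). -/

namespace Dsh
open MvPolynomial

theorem sh_single {α : Type*} (x : α) (w : List α) : sh [x] w = ins x w := by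
  induction w with
  | nil => simp [sh, ins]
  | cons b v ih =>
    rw [sh, ih, ins]
    simp [sh]

theorem S5_dd_map {α β : Type*} (h : α → β) (w : List α) : dd (w.map h) = (dd w).map (List.map h) := by
  induction w with
  | nil => simp [dd]
  | cons b v ih =>
    rw [List.map_cons, dd, dd, ih]
    simp [Function.comp_def]

theorem S5_ins_psl {B : Type*} [AddMonoid B] (x : List B) : ∀ s : B,
    (ins 0 x).map (psl s) = (s :: psl s x) :: dd (psl s x) := by
  induction x with
  | nil => intro s; simp [ins, psl, dd]
  | cons b v ih =>
    intro s
    have h := ih (s + b)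
    rw [ins, List.map_cons, List.map_map]
    have h2 : (psl s ∘ fun x => b :: x) = (fun z => (s + b) :: z) ∘ psl (s + b) := by
      funext z
      simp [psl]
    rw [h2, ← List.map_map, h]
    simp [psl, dd]

theorem F_dd {r : ℕ} (hr : 2 ≤ r) (f : MvPolynomial (Fin r) ℚ) (hD : DShuf f) {B : Type*} [CommRing B] [Algebra ℚ B]
    (Y : List B) (hY : Y.length = r) : ((dd Y).map (F f)).sum = 0 := by
  rcases Y with _ | ⟨y, Y'⟩
  · simp at hY; omega
  · have hY' : Y'.length + 1 = r := by simpa using hY
    obtain ⟨x, hx, hp⟩ := exists_psl (0 : B) (Y'.map (fun z => z - y))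
    have hxl : x.length + 1 = r := by rw [hx, List.length_map]; exact hY'
    have hne : x ≠ [] := by
      rintro rfl
      simp at hxl; omega
    have h1 := Shuf.subst hD.2 [0] x (by simp) hne (by simp only [List.length_singleton]; omega)
    rw [sh_single] at h1
    have h2 : (ins 0 x).map (ev (sharp f)) = ((ins 0 x).map (psl 0)).map (ev f) := by
      rw [List.map_map]
      apply List.map_congr_left
      intro w hw
      have hwl : w.length = r := by
        rw [← sh_single] at hw
        have := length_of_mem_sh [0] x w hw
        simp only [List.length_singleton] at this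
        omega
      exact ev_sharp f w hwl
    rw [h2, S5_ins_psl, hp, List.map_cons, List.sum_cons, S5_dd_map] at h1
    rw [dd, List.map_cons, List.sum_cons, List.map_map]
    have h3 : F f (y :: y :: Y') = ev f (0 :: Y'.map (fun z => z - y)) := by
      simp [F]
    have h4 : (F f ∘ fun x => y :: x) = ev f ∘ List.map (fun z => z - y) := by
      funext z
      simp [F]
    rw [h3, h4, ← List.map_map]
    exact h1

theorem ev_ins {r : ℕ} (hr : 2 ≤ r) (f : MvPolynomial (Fin r) ℚ) (hD : DShuf f) {B : Type*} [CommRing B] [Algebra ℚ B]
    (w : List B) (hw : w.length + 1 = r) : ((ins 0 w).map (ev f)).sum = 0 := by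
  have hne : w ≠ [] := by
    rintro rfl
    simp at hw; omega
  have h1 := Shuf.subst hD.1 [0] w (by simp) hne (by simp only [List.length_singleton]; omega)
  rwa [sh_single] at h1

end Dsh
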