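import Pool.Agent.Lib.MP_720dbd_nt.W2

/-! Row W3: the two relations for the gap vectors, cyclic invariance. hC1, hC2, hC3 are C_rotate, C_ins, C_zins.
If the first entry of m is >= 1 (for R1) resp. >= 2 (for R2), W m = true :: L and the relation for L (ins_W, zins_W with
phi N = C f (true :: N), and C_rotate for the last term) is the relation; otherwise rotate m (some entry is >= 1
resp. >= 2, because sum m = r >= 1 resp. sum m = r > length m); the sums over inc m are invariant under rotation. -/

namespace Dsh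

theorem W3_W_append (m n : List ℕ) : W (m ++ n) = W m ++ W n := by
  induction m with
  | nil => rfl
  | cons k m ih => simp [W, ih]

theorem W3_count (m : List ℕ) : (W m).count true = m.sum := by
  induction m with
  | nil => rfl
  | cons k m ih => simp [W, ih, List.count_append]

theorem W3_W_succ (k : ℕ) (m : List ℕ) : W ((k + 1) :: m) = true :: W (k :: m) := by
  simp [W, List.replicate_succ]

theorem W3_rot {r : ℕ} (f : MvPolynomial (Fin r) ℚ)
    (hC1 : ∀ (x : Bool) (L : List Bool), (x :: L).count true = r + 1 → C f (x :: L) = C f (L ++ [x]))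
    (u v : List Bool) (h : (u ++ v).count true = r + 1) : C f (u ++ v) = C f (v ++ u) := by
  induction u generalizing v with
  | nil => simp
  | cons x u ih =>
    have h1 : C f (x :: (u ++ v)) = C f ((u ++ v) ++ [x]) := hC1 x (u ++ v) (by simpa using h)
    have h2 : C f (u ++ (v ++ [x])) = C f ((v ++ [x]) ++ u) := by
      apply ih
      rw [← h]
      simp only [List.cons_append, List.count_append, List.count_cons, List.count_nil]
      omega
    rw [List.cons_append, h1, List.append_assoc, h2, List.append_assoc]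
    rfl

theorem q_rot {r : ℕ} (f : MvPolynomial (Fin r) ℚ)
    (hC1 : ∀ (x : Bool) (L : List Bool), (x :: L).count true = r + 1 → C f (x :: L) = C f (L ++ [x]))
    (k : ℕ) (m : List ℕ) (hm : (k :: m).sum = r + 1) : q f (k :: m) = q f (m ++ [k]) := by
  unfold q
  have h1 : W (k :: m) = W [k] ++ W m := by rw [← W3_W_append]; rfl
  rw [W3_W_append, h1]
  apply W3_rot f hC1
  rw [← h1, W3_count, hm]

theorem W3_inc_sum (m : List ℕ) : ∀ p ∈ inc m, p.2.sum = m.sum + 1 := by
  induction m with
  | nil => intro p hp; simp [inc] at hp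
  | cons k m ih =>
    intro p hp
    simp only [inc, List.mem_cons, List.mem_map] at hp
    rcases hp with rfl | ⟨p', hp', rfl⟩
    · simp only [List.sum_cons]; omega
    · have := ih p' hp'
      simp only [List.sum_cons]; omega

theorem W3_inc_snoc (m : List ℕ) (k : ℕ) :
    inc (m ++ [k]) = (inc m).map (fun p => (p.1, p.2 ++ [k])) ++ [(k, m ++ [k + 1])] := by
  induction m with
  | nil => simp [inc]
  | cons x m ih =>
    simp only [List.cons_append, inc, ih, List.map_cons, List.map_append, List.map_map, List.map_nil]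
    simp [Function.comp_def]

theorem W3_sum_rot1 {r : ℕ} (f : MvPolynomial (Fin r) ℚ)
    (hC1 : ∀ (x : Bool) (L : List Bool), (x :: L).count true = r + 1 → C f (x :: L) = C f (L ++ [x]))
    (c : ℕ → ℚ) (k : ℕ) (m : List ℕ) (hm : (k :: m).sum = r) :
    ((inc (k :: m)).map fun p => c p.1 * q f p.2).sum = ((inc (m ++ [k])).map fun p => c p.1 * q f p.2).sum := by
  rw [W3_inc_snoc]
  simp only [inc, List.map_cons, List.sum_cons, List.map_append, List.sum_append, List.map_map, List.map_nil,
    List.sum_nil, add_zero]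
  have h1 : q f ((k + 1) :: m) = q f (m ++ [k + 1]) := by
    apply q_rot f hC1
    simp only [List.sum_cons] at hm ⊢
    omega
  have h2 : (inc m).map ((fun p : ℕ × List ℕ => c p.1 * q f p.2) ∘ fun p => (p.1, k :: p.2)) =
      (inc m).map ((fun p : ℕ × List ℕ => c p.1 * q f p.2) ∘ fun p => (p.1, p.2 ++ [k])) := by
    apply List.map_congr_left
    intro p hp
    have hs := W3_inc_sum m p hp
    simp only [Function.comp_apply]
    rw [q_rot f hC1 k p.2 (by simp only [List.sum_cons] at hm ⊢; omega)]
  rw [h1, h2]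
  ring

theorem W3_sum_rot {r : ℕ} (f : MvPolynomial (Fin r) ℚ)
    (hC1 : ∀ (x : Bool) (L : List Bool), (x :: L).count true = r + 1 → C f (x :: L) = C f (L ++ [x]))
    (c : ℕ → ℚ) (u v : List ℕ) (hm : (u ++ v).sum = r) :
    ((inc (u ++ v)).map fun p => c p.1 * q f p.2).sum = ((inc (v ++ u)).map fun p => c p.1 * q f p.2).sum := by
  induction u generalizing v with
  | nil => simp
  | cons x u ih =>
    have h1 := W3_sum_rot1 f hC1 c x (u ++ v) (by simpa using hm)
    rw [List.cons_append, h1, List.append_assoc, ih (v ++ [x]) (by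
      rw [← hm]; simp only [List.cons_append, List.sum_append, List.sum_cons, List.sum_nil]; omega),
      List.append_assoc]
    rfl

theorem q_R1 {r : ℕ} (hr : 1 ≤ r) (f : MvPolynomial (Fin r) ℚ)
    (hC1 : ∀ (x : Bool) (L : List Bool), (x :: L).count true = r + 1 → C f (x :: L) = C f (L ++ [x]))
    (hC2 : ∀ L : List Bool, (true :: L).count true = r → ((ins true L).map fun N => C f (true :: N)).sum = 0)
    (m : List ℕ) (hm : m.sum = r) : ((inc m).map fun p => ((p.1 : ℚ) + 1) * q f p.2).sum = 0 := by
  obtain ⟨x, hx, hx1⟩ : ∃ x ∈ m, 1 ≤ x := by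
    by_contra hcon
    push Not at hcon
    have : m.sum = 0 := List.sum_eq_zero fun x hx => by have := hcon x hx; omega
    omega
  obtain ⟨u, v, rfl⟩ := List.append_of_mem hx
  obtain ⟨k, rfl⟩ : ∃ k, x = k + 1 := ⟨x - 1, by omega⟩
  have h0 := W3_sum_rot f hC1 (fun n => (n : ℚ) + 1) u ((k + 1) :: v) hm
  rw [h0]
  have hs : ((k + 1) :: v ++ u).sum = r := by
    rw [← hm]; simp only [List.sum_append, List.sum_cons, List.cons_append]; omega
  rw [List.cons_append] at hs ⊢
  generalize v ++ u = w at hs ⊢
  have h1 := hC2 (W (k :: w)) (by rw [← W3_W_succ, W3_count, hs])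
  rw [ins_W] at h1
  simp only [inc, List.map_cons, List.sum_cons, List.map_map] at h1 ⊢
  have h2 : C f (true :: (W (k :: w) ++ [true])) = q f ((k + 1 + 1) :: w) := by
    unfold q
    rw [W3_W_succ, ← List.cons_append, ← W3_W_succ]
    refine (hC1 true (W ((k + 1) :: w)) ?_).symm
    rw [← W3_W_succ, W3_count]
    simp only [List.sum_cons] at hs ⊢
    omega
  rw [h2] at h1
  have h3 : C f (true :: W ((k + 1) :: w)) = q f ((k + 1 + 1) :: w) := by
    unfold q; rw [W3_W_succ (k + 1)]
  rw [h3] at h1
  have h4 : (inc w).map ((fun p : ℕ × List ℕ => ((p.1 : ℚ) + 1) * C f (true :: W p.2)) ∘ fun p => (p.1, k :: p.2)) =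
      (inc w).map ((fun p : ℕ × List ℕ => ((p.1 : ℚ) + 1) * q f p.2) ∘ fun p => (p.1, (k + 1) :: p.2)) := by
    apply List.map_congr_left
    intro p _
    simp only [Function.comp_apply, q]
    rw [W3_W_succ]
  rw [h4] at h1
  rw [← h1]
  push_cast
  ring

theorem q_R2 {r : ℕ} (f : MvPolynomial (Fin r) ℚ)
    (hC1 : ∀ (x : Bool) (L : List Bool), (x :: L).count true = r + 1 → C f (x :: L) = C f (L ++ [x]))
    (hC3 : ∀ L : List Bool, (true :: true :: L).count true = r →
      ((zins (true :: L)).map fun N => C f (true :: N)).sum = 0)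
    (m : List ℕ) (hm : m.sum = r) (hm2 : m.length < r) : ((inc m).map fun p => (p.1 : ℚ) * q f p.2).sum = 0 := by
  obtain ⟨x, hx, hx1⟩ : ∃ x ∈ m, 2 ≤ x := by
    by_contra hcon
    push Not at hcon
    have : m.sum ≤ m.length * 1 := by
      rw [← smul_eq_mul]
      exact List.sum_le_card_nsmul m 1 fun x hx => by have := hcon x hx; omega
    omega
  obtain ⟨u, v, rfl⟩ := List.append_of_mem hx
  obtain ⟨k, rfl⟩ : ∃ k, x = k + 2 := ⟨x - 2, by omega⟩
  have h0 := W3_sum_rot f hC1 (fun n => (n : ℚ)) u ((k + 2) :: v) hm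
  rw [h0]
  have hs : ((k + 2) :: v ++ u).sum = r := by
    rw [← hm]; simp only [List.sum_append, List.sum_cons, List.cons_append]; omega
  rw [List.cons_append] at hs ⊢
  generalize v ++ u = w at hs ⊢
  have h1 := hC3 (W (k :: w)) (by rw [← W3_W_succ, ← W3_W_succ, W3_count]; exact hs)
  rw [← W3_W_succ, zins_W] at h1
  simp only [inc, List.map_cons, List.sum_cons, List.map_map] at h1 ⊢
  have h2 : C f (true :: (W ((k + 1) :: w) ++ [true])) = q f ((k + 2 + 1) :: w) := by
    unfold q
    rw [W3_W_succ (k + 2), ← List.cons_append, ← W3_W_succ]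
    refine (hC1 true (W ((k + 2) :: w)) ?_).symm
    rw [← W3_W_succ, W3_count]
    simp only [List.sum_cons] at hs ⊢
    omega
  rw [h2] at h1
  have h3 : C f (true :: W ((k + 1 + 1) :: w)) = q f ((k + 2 + 1) :: w) := by
    unfold q; rw [W3_W_succ (k + 2)]
  rw [h3] at h1
  have h4 : (inc w).map ((fun p : ℕ × List ℕ => (p.1 : ℚ) * C f (true :: W p.2)) ∘ fun p => (p.1, (k + 1) :: p.2)) =
      (inc w).map ((fun p : ℕ × List ℕ => (p.1 : ℚ) * q f p.2) ∘ fun p => (p.1, (k + 2) :: p.2)) := by
    apply List.map_congr_left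
    intro p _
    simp only [Function.comp_apply, q]
    rw [W3_W_succ (k + 1)]
  rw [h4] at h1
  rw [← h1]
  push_cast
  ring

end Dsh
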