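import Pool.Agent.Lib.MP_720dbd_nt.W1

/-! Row W4: if q vanishes then all coefficients vanish. For a of length r+1 and sum d >= 1 let
L = the word true false^(a_0) true false^(a_1) ...; then g L = (0, a), C f L = cf f a. Rotate L until the last letter is
false (C_rotate); a word with last letter false is W m with m.length = number of false, m.sum = number of true. -/

namespace Dsh

theorem exists_W (L : List Bool) : ∃ m : List ℕ, W m = L ++ [false] := by
  induction L with
  | nil => exact ⟨[0], rfl⟩
  | cons x L ih =>
    obtain ⟨m, hm⟩ := ih
    cases x with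
    | false => exact ⟨0 :: m, by simp [W, hm]⟩
    | true =>
      cases m with
      | nil => simp [W] at hm
      | cons k m =>
        refine ⟨(k + 1) :: m, ?_⟩
        rw [List.cons_append, ← hm]
        simp [W, List.replicate_succ]

theorem count_W (m : List ℕ) : (W m).count true = m.sum ∧ (W m).count false = m.length := by
  induction m with
  | nil => simp [W]
  | cons k m ih =>
    obtain ⟨h1, h2⟩ := ih
    constructor
    · simp only [W, List.count_append, List.count_replicate_self, List.sum_cons]
      rw [List.count_cons, h1]
      simp
    · simp only [W, List.count_append, List.length_cons]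
      rw [List.count_cons, h2, List.count_replicate]
      simp

/-- the word true false^(a_0) true false^(a_1) ... -/
def W4_L : List ℕ → List Bool
  | [] => []
  | k :: a => true :: (List.replicate k false ++ W4_L a)

theorem W4_g_rep (k : ℕ) (M : List Bool) : g (List.replicate k false ++ M) = ((g M).1 + k, (g M).2) := by
  induction k with
  | zero => simp
  | succ k ih =>
    rw [List.replicate_succ, List.cons_append]
    simp only [g, ih]
    rw [Nat.add_assoc]

theorem W4_g (a : List ℕ) : g (W4_L a) = (0, a) := by
  induction a with
  | nil => rfl
  | cons k a ih =>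
    simp only [W4_L, g, W4_g_rep, ih, Nat.zero_add]

theorem W4_count (a : List ℕ) : (W4_L a).count true = a.length ∧ (W4_L a).count false = a.sum := by
  induction a with
  | nil => simp [W4_L]
  | cons k a ih =>
    obtain ⟨h1, h2⟩ := ih
    constructor
    · simp only [W4_L]
      rw [List.count_cons, List.count_append, h1, List.count_replicate]
      simp
    · simp only [W4_L]
      rw [List.count_cons, List.count_append, h2, List.count_replicate_self]
      simp

theorem W4_rot {r : ℕ} (f : MvPolynomial (Fin r) ℚ)
    (hC1 : ∀ (x : Bool) (L : List Bool), (x :: L).count true = r + 1 → C f (x :: L) = C f (L ++ [x]))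
    (P : List Bool) : ∀ Q : List Bool, (P ++ Q).count true = r + 1 → C f (P ++ Q) = C f (Q ++ P) := by
  induction P with
  | nil => intro Q _; simp
  | cons x P ih =>
    intro Q h
    rw [List.cons_append] at h ⊢
    rw [hC1 x (P ++ Q) h, List.append_assoc, ih (Q ++ [x])]
    · simp
    · rw [← h, List.count_cons, List.count_append, List.count_append, List.count_append, List.count_cons,
        List.count_nil]
      omega

theorem cf_zero_of_q {r d : ℕ} (hd : 1 ≤ d) (f : MvPolynomial (Fin r) ℚ)
    (hC1 : ∀ (x : Bool) (L : List Bool), (x :: L).count true = r + 1 → C f (x :: L) = C f (L ++ [x]))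
    (hq : ∀ m : List ℕ, m.length = d → m.sum = r + 1 → q f m = 0)
    (a : List ℕ) (ha : a.length = r + 1) (hs : a.sum = d) : cf f a = 0 := by
  obtain ⟨c1, c2⟩ := W4_count a
  have h1 : C f (W4_L a) = cf f a := by
    unfold C ex
    rw [W4_g, addLast_zero]
  have hmem : false ∈ W4_L a := by
    rw [← List.count_pos_iff, c2, hs]
    omega
  obtain ⟨P, Q, hPQ⟩ := List.append_of_mem hmem
  obtain ⟨m, hm⟩ := exists_W (Q ++ P)
  have h2 : C f (W4_L a) = C f (W m) := by
    have e1 : W4_L a = (P ++ [false]) ++ Q := by rw [hPQ]; simp
    rw [hm, List.append_assoc, e1]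
    exact W4_rot f hC1 (P ++ [false]) Q (by rw [← e1, c1, ha])
  obtain ⟨d1, d2⟩ := count_W m
  have hct : ∀ x, (W m).count x = (W4_L a).count x := by
    intro x
    rw [hm, hPQ]
    simp only [List.count_append, List.count_cons, List.count_nil]
    omega
  have h3 : m.sum = r + 1 := by rw [← d1, hct, c1, ha]
  have h4 : m.length = d := by rw [← d2, hct, c2, hs]
  have h5 := hq m h4 h3
  unfold q at h5
  rw [← h1, h2, h5]

end Dsh
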