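import Pool.Agent.Lib.MP_720dbd_nt.A6
import Pool.Agent.Lib.MP_720dbd_nt.C1
import Pool.Agent.Lib.MP_720dbd_nt.C2
import Pool.Agent.Lib.MP_720dbd_nt.C3
import Pool.Agent.Lib.MP_720dbd_nt.S4
import Pool.Agent.Lib.MP_720dbd_nt.S5
import Pool.Agent.Lib.MP_720dbd_nt.W3
import Pool.Agent.Lib.MP_720dbd_nt.W4

/-! Assembly. -/

namespace Dsh
open MvPolynomial

theorem sum_sub_aux {α : Type*} (l : List α) (a b c : α → ℚ) (h : ∀ x, a x = b x - c x) :
    (l.map a).sum = (l.map b).sum - (l.map c).sum := by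
  induction l with
  | nil => simp
  | cons x l ih => simp only [List.map_cons, List.sum_cons, ih, h x]; ring

theorem vanish {r d : ℕ} (hd0 : 0 < d) (hd : Even d) (hdr : d < r) (hr : d * (d - 1) / 2 ≤ r + 1)
    (f : MvPolynomial (Fin r) ℚ) (hf : f.IsHomogeneous d) (hD : DShuf f) : f = 0 := by
  have hr2 : 2 ≤ r := by omega
  have h1 := cf_dbl f (fun Y hY => F_dd hr2 f hD Y hY)
  have h2 := cf_ins f (fun w hw => ev_ins hr2 f hD w hw)
  have h3 := cf_rotate f (fun z w hw => F_cyc (by omega) hd f hf hD z w hw)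
  have c1 := C_rotate f h3
  have c2 := C_ins f h1
  have c3 := C_zins f h2
  have R2 := q_R2 f c1 c3
  have R1 := q_R1 (by omega) f c1 c2
  refine f_zero f hf (fun a ha hs => cf_zero_of_q (by omega) f c1 ?_ a ha hs)
  refine alg_final d (r + 1) hd hd0 (q f) ?_ ?_ (fun k m _ hs => q_rot f c1 k m hs) hr (by omega)
  · intro m hm hs
    have e : ((inc m).map fun p => q f p.2).sum =
        ((inc m).map fun p => ((p.1 : ℚ) + 1) * q f p.2).sum - ((inc m).map fun p => (p.1 : ℚ) * q f p.2).sum :=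
      sum_sub_aux _ _ _ _ (fun p => by ring)
    rw [e, R1 m (by omega), R2 m (by omega) (by omega), sub_zero]
  · intro m hm hs
    exact R2 m (by omega) (by omega)

end Dsh
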