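import Pool.Agent.Lib.MP_720dbd_nt.Wds

/-! Row S1: substitution. The hypothesis is the case u, v = the variables; apply the algebra map sending the i-th variable
to the i-th entry of u ++ v (ev f commutes with algebra maps, sh commutes with map). -/

namespace Dsh
open MvPolynomial

theorem sh_map {α β : Type*} (h : α → β) (u v : List α) : sh (u.map h) (v.map h) = (sh u v).map (List.map h) := by
  induction u, v using sh.induct with
  | case1 v => simp [sh]
  | case2 a u => simp [sh]
  | case3 a u b v ih1 ih2 =>
    rw [List.map_cons] at ih1
    rw [List.map_cons] at ih2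
    rw [List.map_cons, List.map_cons, sh, sh, ih1, ih2, List.map_append, List.map_map, List.map_map, List.map_map,
      List.map_map]
    congr 1

theorem length_of_mem_sh {α : Type*} (u v w : List α) (hw : w ∈ sh u v) : w.length = u.length + v.length := by
  induction u, v using sh.induct generalizing w with
  | case1 v =>
    rw [sh, List.mem_singleton] at hw
    simp [hw]
  | case2 a u =>
    rw [sh, List.mem_singleton] at hw
    simp [hw]
  | case3 a u b v ih1 ih2 =>
    rw [sh, List.mem_append, List.mem_map, List.mem_map] at hw
    rcases hw with ⟨t, ht, rfl⟩ | ⟨t, ht, rfl⟩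
    · have := ih1 t ht
      simp only [List.length_cons] at this ⊢
      omega
    · have := ih2 t ht
      simp only [List.length_cons] at this ⊢
      omega

theorem S1_ev {r : ℕ} (f : MvPolynomial (Fin r) ℚ) {B B' : Type*} [CommRing B] [Algebra ℚ B] [CommRing B'] [Algebra ℚ B']
    (φ : B →ₐ[ℚ] B') (w : List B) : φ (ev f w) = ev f (w.map φ) := by
  unfold ev
  rw [← AlgHom.comp_apply, comp_aeval]
  congr 2
  funext i
  simp only [List.getD_eq_getElem?_getD, List.getElem?_map]
  cases w[i.1]? with
  | none => simp
  | some y => simp

theorem Shuf.subst {r : ℕ} {f : MvPolynomial (Fin r) ℚ} (h : Shuf f) {B : Type*} [CommRing B] [Algebra ℚ B]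
    (u v : List B) (hu : u ≠ []) (hv : v ≠ []) (hl : u.length + v.length = r) :
    ((sh u v).map (ev f)).sum = 0 := by
  let φ : MvPolynomial (Fin r) ℚ →ₐ[ℚ] B := aeval (fun i : Fin r => (u ++ v).getD i 0)
  have hx : (xs r).map φ = u ++ v := by
    unfold xs
    rw [List.map_ofFn]
    apply List.ext_getElem
    · simp [hl]
    · intro n h1 h2
      rw [List.getElem_ofFn]
      simp only [Function.comp_apply, φ, aeval_X, List.getD_eq_getElem?_getD]
      rw [List.getElem?_eq_getElem h2]
      rfl
  have hu0 : 1 ≤ u.length := List.length_pos_iff.mpr hu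
  have hv0 : 1 ≤ v.length := List.length_pos_iff.mpr hv
  have h1 := congrArg φ (h u.length hu0 (by omega))
  rw [map_zero, map_list_sum, List.map_map] at h1
  have h2 : ((xs r).take u.length).map φ = u := by
    rw [List.map_take, hx, List.take_left']
    rfl
  have h3 : ((xs r).drop u.length).map φ = v := by
    rw [List.map_drop, hx, List.drop_left']
    rfl
  have key : ∀ P Q : List (MvPolynomial (Fin r) ℚ),
      (sh (P.map φ) (Q.map φ)).map (ev f) = (sh P Q).map (φ ∘ ev f) := by
    intro P Q
    rw [sh_map, List.map_map]
    apply List.map_congr_left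
    intro w _
    exact (S1_ev f φ w).symm
  have h4 := key ((xs r).take u.length) ((xs r).drop u.length)
  rw [h2, h3] at h4
  rw [h4]
  exact h1

end Dsh
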