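import Pool.Agent.Lib.MP_720dbd_nt.Wds

/-! Row W1: exponents of binary words. -/

namespace Dsh

theorem length_g (L : List Bool) : (g L).2.length = L.count true := by
  induction L with
  | nil => rfl
  | cons x L ih => cases x <;> simp [g, ih]

theorem sum_g (L : List Bool) : (g L).1 + (g L).2.sum = L.count false := by
  induction L with
  | nil => rfl
  | cons x L ih => cases x <;> simp [g, ← ih]; ring

theorem W1_g_ne_nil (L : List Bool) (h : true ∈ L) : (g L).2 ≠ [] := by
  intro h0
  have h1 := length_g L
  rw [h0, List.length_nil] at h1
  have h2 : 0 < L.count true := List.count_pos_iff.mpr h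
  omega

theorem g_snoc_true (L : List Bool) : g (L ++ [true]) = ((g L).1, (g L).2 ++ [0]) := by
  induction L with
  | nil => rfl
  | cons x L ih => cases x <;> simp [g, ih]

theorem addLast_zero (v : List ℕ) : addLast 0 v = v := by
  induction v with
  | nil => rfl
  | cons x v ih =>
    cases v with
    | nil => simp [addLast]
    | cons y v => simp [addLast, ih]

theorem W1_addLast_cons (b x : ℕ) (v : List ℕ) (hv : v ≠ []) : addLast b (x :: v) = x :: addLast b v := by
  cases v with
  | nil => exact absurd rfl hv
  | cons y v => rfl

theorem addLast_snoc (b x : ℕ) (v : List ℕ) : addLast b (v ++ [x]) = v ++ [x + b] := by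
  induction v with
  | nil => rfl
  | cons y v ih =>
    rw [List.cons_append, W1_addLast_cons b y _ (by simp), ih, List.cons_append]

theorem W1_addLast_addLast (a b : ℕ) (v : List ℕ) : addLast a (addLast b v) = addLast (a + b) v := by
  rcases List.eq_nil_or_concat v with rfl | ⟨w, x, rfl⟩
  · rfl
  · rw [List.concat_eq_append, addLast_snoc, addLast_snoc, addLast_snoc, add_comm a b, ← add_assoc]

theorem g_snoc_false (L : List Bool) (h : true ∈ L) : g (L ++ [false]) = ((g L).1, addLast 1 (g L).2) := by
  induction L with
  | nil => simp at h
  | cons x L ih =>
    cases x with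
    | false =>
      have h' : true ∈ L := by simpa using h
      simp [g, ih h']
    | true =>
      by_cases h' : true ∈ L
      · simp only [List.cons_append, g, ih h']
        rw [W1_addLast_cons _ _ _ (W1_g_ne_nil L h')]
      · have hL : (g L).2 = [] := by
          rw [← List.length_eq_zero_iff, length_g]
          exact List.count_eq_zero.mpr h'
        have hc : (g (L ++ [false])).2 = [] := by
          rw [← List.length_eq_zero_iff, length_g, List.count_eq_zero]
          simpa using h'
        have h1 := sum_g L
        have h2 := sum_g (L ++ [false])
        rw [hL] at h1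
        rw [hc, List.count_append] at h2
        simp only [List.sum_nil, add_zero, List.count_cons_self, List.count_nil, zero_add] at h1 h2
        simp only [List.cons_append, g, hL, hc, addLast]
        rw [h2, h1]

theorem ex_true (L : List Bool) : ex (true :: L) = (g L).1 :: (g L).2 := by
  simp [ex, g, addLast_zero]

theorem C_rotate {r : ℕ} (f : MvPolynomial (Fin r) ℚ)
    (h : ∀ (x : ℕ) (a : List ℕ), a.length = r → cf f (x :: a) = cf f (a ++ [x]))
    (x : Bool) (L : List Bool) (hL : (x :: L).count true = r + 1) : C f (x :: L) = C f (L ++ [x]) := by
  cases x with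
  | true =>
    have hl : L.count true = r := by simpa using hL
    unfold C
    rw [ex_true, h _ _ (by rw [length_g, hl])]
    simp only [ex, g_snoc_true, addLast_snoc, zero_add]
  | false =>
    have hl : L.count true = r + 1 := by simpa using hL
    have hm : true ∈ L := List.count_pos_iff.mp (by omega)
    unfold C
    simp only [ex, g, g_snoc_false L hm, W1_addLast_addLast]

theorem g_ins_true (L : List Bool) : (ins true L).map g =
    ((List.Nat.antidiagonal (g L).1).map fun p => (p.1, p.2 :: (g L).2)) ++ (dbl (g L).2).map (fun a => ((g L).1, a)) := by
  induction L with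
  | nil => simp [ins, g, dbl]
  | cons x L ih =>
    cases x with
    | false =>
      have e : (g ∘ fun w => false :: w) = (fun p : ℕ × List ℕ => (p.1 + 1, p.2)) ∘ g := by
        funext w; rfl
      simp only [ins, List.map_cons, List.map_map, e]
      rw [← List.map_map, ih]
      simp [g, List.Nat.antidiagonal_succ, Function.comp_def]
    | true =>
      have e : (g ∘ fun w => true :: w) = (fun p : ℕ × List ℕ => (0, p.1 :: p.2)) ∘ g := by
        funext w; rfl
      simp only [ins, List.map_cons, List.map_map, e]
      rw [← List.map_map, ih]
      simp [g, dbl, Function.comp_def]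

theorem g_zins (L : List Bool) : (zins L).map g = (ins 0 (g L).2).map (fun a => ((g L).1, a)) := by
  induction L with
  | nil => simp [zins, ins, g]
  | cons x L ih =>
    cases x with
    | false =>
      have e : (g ∘ fun w => false :: w) = (fun p : ℕ × List ℕ => (p.1 + 1, p.2)) ∘ g := by
        funext w; rfl
      simp only [zins, List.map_map, e]
      rw [← List.map_map, ih]
      simp [g, Function.comp_def]
    | true =>
      have e : (g ∘ fun w => true :: w) = (fun p : ℕ × List ℕ => (0, p.1 :: p.2)) ∘ g := by
        funext w; rfl
      simp only [zins, List.map_cons, List.map_map, e]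
      rw [← List.map_map, ih]
      simp [g, ins, Function.comp_def]

end Dsh
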