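import Pool.Agent.Lib.MP_720dbd_nt.W1

/-! Row W2: the relations for cyclic words (from g_ins_true, g_zins, ex_true) and the sums over insertions in W m. -/

namespace Dsh

theorem C_ins {r : ℕ} (f : MvPolynomial (Fin r) ℚ)
    (h : ∀ v : List ℕ, v.length = r → ((dbl v).map (cf f)).sum = 0)
    (L : List Bool) (hL : (true :: L).count true = r) : ((ins true L).map fun N => C f (true :: N)).sum = 0 := by
  have h1 : ((ins true L).map fun N => C f (true :: N)) =
      ((ins true L).map g).map (fun p => cf f (p.1 :: p.2)) := by
    rw [List.map_map]
    refine List.map_congr_left (fun N _ => ?_)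
    simp only [Function.comp_apply, C, ex_true]
  have hlen : ((g L).1 :: (g L).2).length = r := by
    rw [List.length_cons, length_g, ← hL, List.count_cons_self]
  have h2 := h _ hlen
  rw [h1, g_ins_true, List.map_append, List.sum_append, List.map_map, List.map_map]
  rw [dbl, List.map_append, List.sum_append, List.map_map, List.map_map] at h2
  exact h2

theorem C_zins {r : ℕ} (f : MvPolynomial (Fin r) ℚ)
    (h : ∀ a : List ℕ, a.length + 1 = r → ((ins 0 a).map fun b => cf f (0 :: b)).sum = 0)
    (L : List Bool) (hL : (true :: true :: L).count true = r) :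
    ((zins (true :: L)).map fun N => C f (true :: N)).sum = 0 := by
  have hlen : ((g L).1 :: (g L).2).length + 1 = r := by
    rw [List.length_cons, length_g, ← hL, List.count_cons_self, List.count_cons_self]
  have h2 := h _ hlen
  rw [ins, List.map_cons, List.sum_cons, List.map_map] at h2
  rw [zins, List.map_cons, List.sum_cons, List.map_map]
  have h1 : ((zins L).map ((fun N => C f (true :: N)) ∘ (true :: ·))) =
      ((zins L).map g).map (fun p => cf f (0 :: p.1 :: p.2)) := by
    rw [List.map_map]
    refine List.map_congr_left (fun N _ => ?_)
    simp only [Function.comp_apply, C, ex_true, g]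
  have h3 : C f (true :: true :: true :: L) = cf f (0 :: 0 :: (g L).1 :: (g L).2) := by
    simp only [C, ex_true, g]
  rw [h1, g_zins, List.map_map, h3]
  exact h2

theorem W2_ins_rep (φ : List Bool → ℚ) (k : ℕ) (u : List Bool) :
    ((ins true (List.replicate k true ++ u)).map φ).sum =
      (k : ℚ) * φ (List.replicate (k + 1) true ++ u) +
        ((ins true u).map fun N => φ (List.replicate k true ++ N)).sum := by
  induction k generalizing φ with
  | zero => simp
  | succ k ih =>
    have h := ih (fun N => φ (true :: N))
    rw [List.replicate_succ, List.cons_append, ins, List.map_cons, List.sum_cons, List.map_map]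
    have e : (φ ∘ (true :: ·)) = fun N => φ (true :: N) := rfl
    rw [e, h]
    simp only [List.replicate_succ, List.cons_append]
    push_cast
    ring

theorem W2_zins_rep (φ : List Bool → ℚ) (k : ℕ) (u : List Bool) :
    ((zins (List.replicate k true ++ u)).map φ).sum =
      (k : ℚ) * φ (List.replicate (k + 1) true ++ u) +
        ((zins u).map fun N => φ (List.replicate k true ++ N)).sum := by
  induction k generalizing φ with
  | zero => simp
  | succ k ih =>
    have h := ih (fun N => φ (true :: N))
    rw [List.replicate_succ, List.cons_append, zins, List.map_cons, List.sum_cons, List.map_map]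
    have e : (φ ∘ (true :: ·)) = fun N => φ (true :: N) := rfl
    rw [e, h]
    simp only [List.replicate_succ, List.cons_append]
    push_cast
    ring

theorem ins_W (φ : List Bool → ℚ) (m : List ℕ) : ((ins true (W m)).map φ).sum =
    ((inc m).map fun p => ((p.1 : ℚ) + 1) * φ (W p.2)).sum + φ (W m ++ [true]) := by
  induction m generalizing φ with
  | nil => simp [W, ins, inc]
  | cons k m ih =>
    have h := ih (fun N => φ (List.replicate k true ++ false :: N))
    rw [W, W2_ins_rep, ins, List.map_cons, List.sum_cons, List.map_map]
    have e : ((fun N => φ (List.replicate k true ++ N)) ∘ (false :: ·)) =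
        fun N => φ (List.replicate k true ++ false :: N) := rfl
    rw [e, h, inc, List.map_cons, List.sum_cons, List.map_map]
    have e2 : ((fun p : ℕ × List ℕ => ((p.1 : ℚ) + 1) * φ (W p.2)) ∘ fun p : ℕ × List ℕ => (p.1, k :: p.2)) =
        fun p : ℕ × List ℕ => ((p.1 : ℚ) + 1) * φ (List.replicate k true ++ false :: W p.2) := rfl
    have e3 : List.replicate k true ++ true :: false :: W m = W ((k + 1) :: m) := by
      rw [W, List.replicate_succ', List.append_assoc]
      rfl
    have e4 : List.replicate (k + 1) true ++ false :: W m = W ((k + 1) :: m) := rfl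
    rw [e2, e3, e4]
    simp only [List.append_assoc, List.cons_append]
    ring

theorem zins_W (φ : List Bool → ℚ) (m : List ℕ) : ((zins (W m)).map φ).sum =
    ((inc m).map fun p => (p.1 : ℚ) * φ (W p.2)).sum + φ (W m ++ [true]) := by
  induction m generalizing φ with
  | nil => simp [W, zins, inc]
  | cons k m ih =>
    have h := ih (fun N => φ (List.replicate k true ++ false :: N))
    rw [W, W2_zins_rep, zins, List.map_map]
    have e : ((fun N => φ (List.replicate k true ++ N)) ∘ (false :: ·)) =
        fun N => φ (List.replicate k true ++ false :: N) := rfl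
    rw [e, h, inc, List.map_cons, List.sum_cons, List.map_map]
    have e2 : ((fun p : ℕ × List ℕ => (p.1 : ℚ) * φ (W p.2)) ∘ fun p : ℕ × List ℕ => (p.1, k :: p.2)) =
        fun p : ℕ × List ℕ => (p.1 : ℚ) * φ (List.replicate k true ++ false :: W p.2) := rfl
    have e4 : List.replicate (k + 1) true ++ false :: W m = W ((k + 1) :: m) := rfl
    rw [e2, e4]
    simp only [List.append_assoc, List.cons_append]
    ring

end Dsh
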