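import Pool.Agent.Lib.MP_720dbd_nt.Defs

/-! Internal definitions: words, exponents, gaps. -/

namespace Dsh
open MvPolynomial

section lists
variable {α : Type*}

/-- all insertions of a letter -/
def ins (x : α) : List α → List (List α)
  | [] => [[x]]
  | y :: w => (x :: y :: w) :: (ins x w).map (y :: ·)

/-- all doublings of one letter -/
def dd : List α → List (List α)
  | [] => []
  | y :: w => (y :: y :: w) :: (dd w).map (y :: ·)

/-- all splittings of one entry into two -/
def dbl : List ℕ → List (List ℕ)
  | [] => []
  | x :: v => ((List.Nat.antidiagonal x).map fun p => p.1 :: p.2 :: v) ++ (dbl v).map (x :: ·)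

/-- partial sums s + w_1, s + w_1 + w_2, ... -/
def psl {B : Type*} [Add B] (s : B) : List B → List B
  | [] => []
  | x :: w => (s + x) :: psl (s + x) w

/-- (number of leading letters false, numbers of letters false after the letters true) -/
def g : List Bool → ℕ × List ℕ
  | [] => (0, [])
  | false :: L => ((g L).1 + 1, (g L).2)
  | true :: L => (0, (g L).1 :: (g L).2)

/-- add b to the last entry -/
def addLast (b : ℕ) : List ℕ → List ℕ
  | [] => []
  | [x] => [x + b]
  | x :: y :: v => x :: addLast b (y :: v)

/-- exponents of a cyclic binary word -/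
def ex (L : List Bool) : List ℕ := addLast (g L).1 (g L).2

/-- insertions of true in front of a letter true or at the end -/
def zins : List Bool → List (List Bool)
  | [] => [[true]]
  | false :: L => (zins L).map (false :: ·)
  | true :: L => (true :: true :: L) :: (zins L).map (true :: ·)

/-- the word true^(m_1) false true^(m_2) false ... -/
def W : List ℕ → List Bool
  | [] => []
  | k :: m => List.replicate k true ++ false :: W m

/-- m + e_i for all i, together with the entry m_i -/
def inc : List ℕ → List (ℕ × List ℕ)
  | [] => []
  | k :: m => (k, (k + 1) :: m) :: (inc m).map fun p => (p.1, k :: p.2)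

end lists

section cyc
variable {r : ℕ}

/-- F(y_0, ..., y_r) = f(y_1 - y_0, ..., y_r - y_0) -/
noncomputable def F {B : Type*} [CommRing B] [Algebra ℚ B] (f : MvPolynomial (Fin r) ℚ) : List B → B
  | [] => 0
  | y :: w => ev f (w.map fun z => z - y)

/-- the polynomial F -/
noncomputable def Fp (f : MvPolynomial (Fin r) ℚ) : MvPolynomial (Fin (r + 1)) ℚ :=
  aeval (fun i : Fin r => X i.succ - X 0) f

/-- exponent vector of a list -/
noncomputable def fs {n : ℕ} (a : List ℕ) : Fin n →₀ ℕ := Finsupp.equivFunOnFinite.symm fun i => a.getD i 0

/-- coefficient of y^a in F -/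
noncomputable def cf (f : MvPolynomial (Fin r) ℚ) (a : List ℕ) : ℚ := coeff (fs a) (Fp f)

/-- coefficient of a cyclic binary word -/
noncomputable def C (f : MvPolynomial (Fin r) ℚ) (L : List Bool) : ℚ := cf f (ex L)

/-- coefficient of a gap vector -/
noncomputable def q (f : MvPolynomial (Fin r) ℚ) (m : List ℕ) : ℚ := C f (W m)

end cyc

end Dsh
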